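import Pool.Agent.Helper99.MB.Mean
import Pool.Agent.Helper69.FF.DivS

/-!
# The bilinear part from the two point correlations
-/

set_option autoImplicit false

namespace Pool.Agent.Helper99.MB

open Finset Pool.Helper19.V4

/-- one block -/
theorem block99 {g : ℕ → ℤ} (hg : ∀ n, |g n| ≤ 1) {a : ℤ} {b : ℕ} (hb : 1 ≤ b) (hab : IsCoprime a (b : ℤ))
    (N L M : ℕ) (hL : 1 ≤ L) (hM : M = N / L) {E : ℝ} (hE0 : 0 ≤ E)
    (hE : ∀ h, 1 ≤ h → h ≤ M → |((∑ n ∈ Icc 1 (M - h), g n * g (n + h) : ℤ) : ℝ)| ≤ E)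
    (α : ℕ → ℝ) (hα : ∀ m, 0 ≤ α m) :
    ∑ m ∈ Ioc L (2 * L), α m * ‖G99 g (N / m) ((a : ℝ) * m / b)‖ ≤
      6 * (1 + Real.log (2 * ((M : ℝ) + 1))) * (Real.sqrt (∑ m ∈ Ioc L (2 * L), α m ^ 2) *
        Real.sqrt (((2 * L : ℕ) : ℝ) * M + 2 * E * (((M : ℝ) * ((2 * L : ℕ) : ℝ) / b + 2 * ((M : ℝ) + b)) *
          (1 + Real.log ((M : ℝ) + b))))) := by
  obtain ⟨W, hW0, hW, hWs⟩ := cutW99 M
  obtain ⟨B, hB⟩ : ∃ B : ℝ, B = ((2 * L : ℕ) : ℝ) * M + 2 * E * (((M : ℝ) * ((2 * L : ℕ) : ℝ) / b +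
    2 * ((M : ℝ) + b)) * (1 + Real.log ((M : ℝ) + b))) := ⟨_, rfl⟩
  rw [← hB]
  have h1 : ∀ m ∈ Ioc L (2 * L), α m * ‖G99 g (N / m) ((a : ℝ) * m / b)‖ ≤
      ∑ j ∈ range (M + 1), W j * (α m * ‖G99 g M ((a : ℝ) * m / b + j / ((M + 1 : ℕ) : ℝ))‖) := by
    intro m hm
    rw [mem_Ioc] at hm
    have hK : N / m ≤ M := by
      rw [hM]
      exact Nat.div_le_div_left hm.1.le hL
    rw [cutEq99 g hK]
    calc α m * ‖∑ j ∈ range (M + 1), w99 M (N / m) j * G99 g M ((a : ℝ) * m / b + j / ((M + 1 : ℕ) : ℝ))‖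
        ≤ α m * ∑ j ∈ range (M + 1), W j * ‖G99 g M ((a : ℝ) * m / b + j / ((M + 1 : ℕ) : ℝ))‖ := by
          refine mul_le_mul_of_nonneg_left ((norm_sum_le _ _).trans (Finset.sum_le_sum fun j _ => ?_)) (hα m)
          rw [norm_mul]
          exact mul_le_mul_of_nonneg_right (hW _ j hK) (norm_nonneg _)
      _ = _ := by
          rw [Finset.mul_sum]
          exact Finset.sum_congr rfl fun j _ => by ring
  have h2 : ∀ j ∈ range (M + 1), ∑ m ∈ Ioc L (2 * L), α m * ‖G99 g M ((a : ℝ) * m / b + j / ((M + 1 : ℕ) : ℝ))‖ ≤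
      Real.sqrt (∑ m ∈ Ioc L (2 * L), α m ^ 2) * Real.sqrt B := by
    intro j _
    refine (Real.sum_mul_le_sqrt_mul_sqrt (Ioc L (2 * L)) α
      (fun m => ‖G99 g M ((a : ℝ) * m / b + j / ((M + 1 : ℕ) : ℝ))‖)).trans ?_
    refine mul_le_mul_of_nonneg_left (Real.sqrt_le_sqrt ?_) (Real.sqrt_nonneg _)
    rw [hB]
    exact mean99 hg hb hab M hE0 hE L (2 * L) _
  calc _ ≤ ∑ m ∈ Ioc L (2 * L), ∑ j ∈ range (M + 1), W j *
        (α m * ‖G99 g M ((a : ℝ) * m / b + j / ((M + 1 : ℕ) : ℝ))‖) := Finset.sum_le_sum h1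
    _ = ∑ j ∈ range (M + 1), W j * ∑ m ∈ Ioc L (2 * L),
        α m * ‖G99 g M ((a : ℝ) * m / b + j / ((M + 1 : ℕ) : ℝ))‖ := by
        rw [Finset.sum_comm]
        exact Finset.sum_congr rfl fun j _ => by rw [Finset.mul_sum]
    _ ≤ ∑ j ∈ range (M + 1), W j * (Real.sqrt (∑ m ∈ Ioc L (2 * L), α m ^ 2) * Real.sqrt B) :=
        Finset.sum_le_sum fun j hj => mul_le_mul_of_nonneg_left (h2 j hj) (hW0 j)
    _ = (∑ j ∈ range (M + 1), W j) * (Real.sqrt (∑ m ∈ Ioc L (2 * L), α m ^ 2) * Real.sqrt B) := by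
        rw [Finset.sum_mul]
    _ ≤ _ := mul_le_mul_of_nonneg_right hWs (by positivity)

/-- the dyadic decomposition -/
lemma dyad99 (f : ℕ → ℝ) (Y : ℕ) (I : ℕ) :
    ∑ m ∈ Ioc Y (2 ^ I * Y), f m = ∑ i ∈ range I, ∑ m ∈ Ioc (2 ^ i * Y) (2 * (2 ^ i * Y)), f m := by
  induction I with
  | zero => simp
  | succ I ih =>
    rw [Finset.sum_range_succ, ← ih]
    have h1 : 2 ^ (I + 1) * Y = 2 * (2 ^ I * Y) := by ring
    rw [h1]
    have h2 : Y ≤ 2 ^ I * Y := Nat.le_mul_of_pos_left Y (by positivity)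
    exact (Finset.sum_Ioc_consecutive f h2 (by omega)).symm

/-- the two point correlations of the Moebius function -/
def Corr99 (g : ℕ → ℤ) (c : ℝ) : Prop :=
  ∀ ε : ℝ, 0 < ε → ∃ C : ℝ, ∀ N M h : ℕ, 1 ≤ N → M ≤ N → 1 ≤ h → h ≤ N →
    |((∑ n ∈ Icc 1 M, g n * g (n + h) : ℤ) : ℝ)| ≤ C * (N : ℝ) ^ (c + ε)

lemma logle99 {δ : ℝ} (hδ : 0 < δ) : ∃ C : ℝ, 1 ≤ C ∧ ∀ (N : ℕ) (y : ℝ), 1 ≤ N → 0 < y → y ≤ 4 * N →
    1 + Real.log y ≤ C * (N : ℝ) ^ δ := by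
  refine ⟨3 + 1 / δ, by have : 0 < 1 / δ := by positivity
                        linarith, fun N y hN hy0 hy => ?_⟩
  have hN1 : (1 : ℝ) ≤ N := by exact_mod_cast hN
  have h1 : Real.log y ≤ Real.log (4 * N) := Real.log_le_log hy0 hy
  rw [Real.log_mul (by norm_num) (by linarith)] at h1
  have h4 : Real.log 4 ≤ 2 := by
    have : (4 : ℝ) = 2 ^ 2 := by norm_num
    rw [this, Real.log_pow]
    have := Real.log_two_lt_d9
    push_cast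
    linarith
  have h2 := Real.log_le_rpow_div (by linarith : (0 : ℝ) ≤ N) hδ
  have h3 : (1 : ℝ) ≤ (N : ℝ) ^ δ := Real.one_le_rpow hN1 hδ.le
  have h5 : (N : ℝ) ^ δ / δ = 1 / δ * (N : ℝ) ^ δ := by ring
  rw [h5] at h2
  nlinarith

/-- the size of one block -/
lemma size99 {c : ℝ} (hc0 : 0 ≤ c) (hc1 : c ≤ 1) {N Y Z L M b : ℕ} (hY : 1 ≤ Y) (hYL : Y ≤ L) (hLZ : L ≤ Z)
    (hM1 : 1 ≤ M) (hML : M * L ≤ N) (hb : 1 ≤ b) :
    (L : ℝ) * ((M : ℝ) ^ c * ((M : ℝ) * L / b + M + b)) ≤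
      (N : ℝ) ^ (1 + c) * (Y : ℝ) ^ (-c) + (N : ℝ) ^ (1 + c) * (Z : ℝ) ^ (1 - c) / b +
        (N : ℝ) ^ c * (Z : ℝ) ^ (1 - c) * b := by
  have hL1 : (1 : ℝ) ≤ L := by exact_mod_cast hY.trans hYL
  have hL0 : (0 : ℝ) < L := by linarith
  have hY0 : (0 : ℝ) < Y := by exact_mod_cast hY
  have hM0 : (0 : ℝ) < M := by exact_mod_cast hM1
  have hb0 : (0 : ℝ) < b := by exact_mod_cast hb
  have hML' : (M : ℝ) * L ≤ N := by exact_mod_cast hML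
  have hN0 : (0 : ℝ) < N := lt_of_lt_of_le (by positivity) hML'
  have hYL' : (Y : ℝ) ≤ L := by exact_mod_cast hYL
  have hLZ' : (L : ℝ) ≤ Z := by exact_mod_cast hLZ
  have e1 : (L : ℝ) * (M : ℝ) ^ c = (L : ℝ) ^ (1 - c) * ((M : ℝ) * L) ^ c := by
    rw [Real.mul_rpow hM0.le hL0.le]
    have : (L : ℝ) = (L : ℝ) ^ (1 - c) * (L : ℝ) ^ c := by
      rw [← Real.rpow_add hL0]
      simp
    calc (L : ℝ) * (M : ℝ) ^ c = ((L : ℝ) ^ (1 - c) * (L : ℝ) ^ c) * (M : ℝ) ^ c := by rw [← this]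
      _ = _ := by ring
  have h1 : (L : ℝ) ^ (1 - c) ≤ (Z : ℝ) ^ (1 - c) := Real.rpow_le_rpow hL0.le hLZ' (by linarith)
  have h2 : ((M : ℝ) * L) ^ c ≤ (N : ℝ) ^ c := Real.rpow_le_rpow (by positivity) hML' hc0
  have h3 : (L : ℝ) * (M : ℝ) ^ c ≤ (Z : ℝ) ^ (1 - c) * (N : ℝ) ^ c := by
    rw [e1]
    exact mul_le_mul h1 h2 (by positivity) (by positivity)
  have hN1c : (N : ℝ) ^ (1 + c) = N * (N : ℝ) ^ c := by
    rw [Real.rpow_add hN0, Real.rpow_one]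
  have p1 : (L : ℝ) * (M : ℝ) ^ c * ((M : ℝ) * L / b) ≤ (N : ℝ) ^ (1 + c) * (Z : ℝ) ^ (1 - c) / b := by
    have h4 : (M : ℝ) * L / b ≤ N / b := div_le_div_of_nonneg_right hML' hb0.le
    calc (L : ℝ) * (M : ℝ) ^ c * ((M : ℝ) * L / b) ≤ ((Z : ℝ) ^ (1 - c) * (N : ℝ) ^ c) * (N / b) :=
          mul_le_mul h3 h4 (by positivity) (by positivity)
      _ = _ := by rw [hN1c]; ring
  have p2 : (L : ℝ) * (M : ℝ) ^ c * b ≤ (N : ℝ) ^ c * (Z : ℝ) ^ (1 - c) * b := by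
    calc (L : ℝ) * (M : ℝ) ^ c * b ≤ ((Z : ℝ) ^ (1 - c) * (N : ℝ) ^ c) * b :=
          mul_le_mul_of_nonneg_right h3 hb0.le
      _ = _ := by ring
  have p3 : (L : ℝ) * (M : ℝ) ^ c * M ≤ (N : ℝ) ^ (1 + c) * (Y : ℝ) ^ (-c) := by
    have h5 : (L : ℝ) ^ (1 - c) * M = ((M : ℝ) * L) * (L : ℝ) ^ (-c) := by
      rw [Real.rpow_sub hL0, Real.rpow_neg hL0.le, Real.rpow_one]
      ring
    have h6 : (L : ℝ) ^ (-c) ≤ (Y : ℝ) ^ (-c) := Real.rpow_le_rpow_of_nonpos hY0 hYL' (by linarith)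
    calc (L : ℝ) * (M : ℝ) ^ c * M = ((L : ℝ) ^ (1 - c) * M) * ((M : ℝ) * L) ^ c := by rw [e1]; ring
      _ = (((M : ℝ) * L) * ((M : ℝ) * L) ^ c) * (L : ℝ) ^ (-c) := by rw [h5]; ring
      _ ≤ ((N : ℝ) * (N : ℝ) ^ c) * (Y : ℝ) ^ (-c) := by
          refine mul_le_mul (mul_le_mul hML' h2 (by positivity) (by positivity)) h6 (by positivity) (by positivity)
      _ = _ := by rw [hN1c]
  calc (L : ℝ) * ((M : ℝ) ^ c * ((M : ℝ) * L / b + M + b)) =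
      (L : ℝ) * (M : ℝ) ^ c * M + (L : ℝ) * (M : ℝ) ^ c * ((M : ℝ) * L / b) + (L : ℝ) * (M : ℝ) ^ c * b := by ring
    _ ≤ _ := by linarith

/-- The bilinear part. -/
theorem tII99 {g : ℕ → ℤ} (hg : ∀ n, |g n| ≤ 1) {c : ℝ} (hc0 : 0 ≤ c) (hc1 : c ≤ 1) (hC : Corr99 g c) :
    ∀ ε : ℝ, 0 < ε → ∃ C : ℝ, 0 < C ∧ ∀ N Y Z : ℕ, 1 ≤ Y → Y ≤ Z → Z ≤ N →
      ∀ (a : ℤ) (b : ℕ), 1 ≤ b → b ≤ N → IsCoprime a (b : ℤ) →
      ∀ α : ℕ → ℝ, (∀ m, |α m| ≤ (m.divisors.card : ℝ)) →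
        ∑ m ∈ Ioc Y Z, |α m| * ‖G99 g (N / m) ((a : ℝ) * m / b)‖ ≤ C * (N : ℝ) ^ ε *
          Real.sqrt ((Z : ℝ) * N + (N : ℝ) ^ (1 + c) * (Y : ℝ) ^ (-c) +
            (N : ℝ) ^ (1 + c) * (Z : ℝ) ^ (1 - c) / b + (N : ℝ) ^ c * (Z : ℝ) ^ (1 - c) * b) := by
  intro ε hε
  obtain ⟨δ, hδ⟩ : ∃ δ : ℝ, δ = ε / 4 := ⟨_, rfl⟩
  have hδ0 : 0 < δ := by rw [hδ]; positivity
  obtain ⟨C1, hC1, hdiv⟩ := Pool.Agent.Helper69.FF.div_bound hδ0
  obtain ⟨C2, hC2⟩ := hC δ hδ0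
  obtain ⟨C3, hC3, hlog⟩ := logle99 hδ0
  obtain ⟨D2, hD2⟩ : ∃ D2 : ℝ, D2 = max C2 0 := ⟨_, rfl⟩
  have hD20 : 0 ≤ D2 := by rw [hD2]; exact le_max_right _ _
  have hC30 : 0 < C3 := by linarith
  refine ⟨2 * C3 * (6 * C3 * (C1 * Real.sqrt (2 + 4 * D2 * C3))), by positivity, ?_⟩
  intro N Y Z hY hYZ hZN a b hb hbN hab α hα
  have hN : 1 ≤ N := hb.trans hbN
  have hN1 : (1 : ℝ) ≤ N := by exact_mod_cast hN
  have hN0 : (0 : ℝ) < N := by linarith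
  have hNδ : (1 : ℝ) ≤ (N : ℝ) ^ δ := Real.one_le_rpow hN1 hδ0.le
  have hb1 : (1 : ℝ) ≤ b := by exact_mod_cast hb
  have hbN' : (b : ℝ) ≤ N := by exact_mod_cast hbN
  have hY1 : (1 : ℝ) ≤ Y := by exact_mod_cast hY
  have hZN' : (Z : ℝ) ≤ N := by exact_mod_cast hZN
  obtain ⟨R, hR⟩ : ∃ R : ℝ, R = (N : ℝ) ^ (1 + c) * (Y : ℝ) ^ (-c) +
            (N : ℝ) ^ (1 + c) * (Z : ℝ) ^ (1 - c) / b + (N : ℝ) ^ c * (Z : ℝ) ^ (1 - c) * b := ⟨_, rfl⟩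
  have hR0 : 0 ≤ R := by rw [hR]; positivity
  obtain ⟨S, hS⟩ : ∃ S : ℝ, S = (Z : ℝ) * N + R := ⟨_, rfl⟩
  have hS0 : 0 ≤ S := by rw [hS]; positivity
  have hSeq : (Z : ℝ) * N + (N : ℝ) ^ (1 + c) * (Y : ℝ) ^ (-c) +
            (N : ℝ) ^ (1 + c) * (Z : ℝ) ^ (1 - c) / b + (N : ℝ) ^ c * (Z : ℝ) ^ (1 - c) * b = S := by
    rw [hS, hR]; ring
  rw [hSeq]
  -- the truncated coefficients
  obtain ⟨β, hβ⟩ : ∃ β : ℕ → ℝ, β = fun m => if m ≤ Z then |α m| else 0 := ⟨_, rfl⟩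
  have hβ0 : ∀ m, 0 ≤ β m := by
    intro m
    rw [hβ]
    dsimp only
    split_ifs
    · exact abs_nonneg _
    · exact le_rfl
  have hβ1 : ∀ m, 1 ≤ m → β m ≤ C1 * (N : ℝ) ^ δ := by
    intro m hm
    rw [hβ]
    dsimp only
    split_ifs with h
    · refine (hα m).trans ((hdiv m (by omega)).trans ?_)
      refine mul_le_mul_of_nonneg_left (Real.rpow_le_rpow (Nat.cast_nonneg m) ?_ hδ0.le) hC1.le
      exact_mod_cast h.trans hZN
    · positivity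
  obtain ⟨B, hB⟩ : ∃ B : ℝ, B = 6 * C3 * (C1 * Real.sqrt (2 + 4 * D2 * C3)) * (N : ℝ) ^ (3 * δ) * Real.sqrt S :=
    ⟨_, rfl⟩
  have hB0 : 0 ≤ B := by rw [hB]; positivity
  have hblock : ∀ L : ℕ, Y ≤ L → ∑ m ∈ Ioc L (2 * L), β m * ‖G99 g (N / m) ((a : ℝ) * m / b)‖ ≤ B := by
    intro L hYL
    rcases le_or_gt Z L with hZL | hLZ
    · have h1 : ∑ m ∈ Ioc L (2 * L), β m * ‖G99 g (N / m) ((a : ℝ) * m / b)‖ = 0 := by
        refine Finset.sum_eq_zero fun m hm => ?_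
        rw [mem_Ioc] at hm
        have h2 : β m = 0 := by
          rw [hβ]
          dsimp only
          rw [if_neg (by omega)]
        rw [h2, zero_mul]
      rw [h1]
      exact hB0
    · have hL1 : 1 ≤ L := hY.trans hYL
      have hL1' : (1 : ℝ) ≤ L := by exact_mod_cast hL1
      have hLN : L ≤ N := by omega
      obtain ⟨M, hM⟩ : ∃ M : ℕ, M = N / L := ⟨_, rfl⟩
      have hM1 : 1 ≤ M := by
        rw [hM]
        exact Nat.div_pos hLN hL1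
      have hM1' : (1 : ℝ) ≤ M := by exact_mod_cast hM1
      have hML : M * L ≤ N := by
        rw [hM]
        exact Nat.div_mul_le_self N L
      have hML' : (M : ℝ) * L ≤ N := by exact_mod_cast hML
      have hMN : M ≤ N := by
        rw [hM]
        exact Nat.div_le_self N L
      have hMN' : (M : ℝ) ≤ N := by exact_mod_cast hMN
      have hE : ∀ h, 1 ≤ h → h ≤ M → |((∑ n ∈ Icc 1 (M - h), g n * g (n + h) : ℤ) : ℝ)| ≤
          D2 * (N : ℝ) ^ δ * (M : ℝ) ^ c := by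
        intro h h1 h2
        refine (hC2 M (M - h) h hM1 (Nat.sub_le _ _) h1 h2).trans ?_
        have h3 : (M : ℝ) ^ (c + δ) = (M : ℝ) ^ c * (M : ℝ) ^ δ := Real.rpow_add (by linarith) _ _
        have h4 : (M : ℝ) ^ δ ≤ (N : ℝ) ^ δ := Real.rpow_le_rpow (by linarith) hMN' hδ0.le
        have h5 : (0 : ℝ) ≤ (M : ℝ) ^ c := Real.rpow_nonneg (by linarith) _
        have h6 : (0 : ℝ) ≤ (M : ℝ) ^ δ := Real.rpow_nonneg (by linarith) _
        calc C2 * (M : ℝ) ^ (c + δ) ≤ D2 * (M : ℝ) ^ (c + δ) := by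
              refine mul_le_mul_of_nonneg_right ?_ (Real.rpow_nonneg (by linarith) _)
              rw [hD2]
              exact le_max_left _ _
          _ = D2 * ((M : ℝ) ^ c * (M : ℝ) ^ δ) := by rw [h3]
          _ ≤ D2 * ((M : ℝ) ^ c * (N : ℝ) ^ δ) := by
              refine mul_le_mul_of_nonneg_left (mul_le_mul_of_nonneg_left h4 h5) hD20
          _ = _ := by ring
      have hE0 : 0 ≤ D2 * (N : ℝ) ^ δ * (M : ℝ) ^ c := by positivity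
      have hb2 := block99 hg hb hab N L M hL1 hM hE0 hE β hβ0
      refine hb2.trans ?_
      have q1 : 1 + Real.log (2 * ((M : ℝ) + 1)) ≤ C3 * (N : ℝ) ^ δ :=
        hlog N _ hN (by linarith) (by linarith)
      have q2 : 1 + Real.log ((M : ℝ) + b) ≤ C3 * (N : ℝ) ^ δ :=
        hlog N _ hN (by linarith) (by linarith)
      have q0 : 0 ≤ 1 + Real.log ((M : ℝ) + b) := by
        have := Real.log_nonneg (by linarith : (1 : ℝ) ≤ (M : ℝ) + b)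
        linarith
      have q3 : ∑ m ∈ Ioc L (2 * L), β m ^ 2 ≤ L * (C1 * (N : ℝ) ^ δ) ^ 2 := by
        have h1 : ∀ m ∈ Ioc L (2 * L), β m ^ 2 ≤ (C1 * (N : ℝ) ^ δ) ^ 2 := by
          intro m hm
          rw [mem_Ioc] at hm
          exact pow_le_pow_left₀ (hβ0 m) (hβ1 m (by omega)) 2
        refine (Finset.sum_le_sum h1).trans ?_
        rw [Finset.sum_const, nsmul_eq_mul, Nat.card_Ioc]
        have : 2 * L - L = L := by omega
        rw [this]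
      have q4 : (L : ℝ) * (((2 * L : ℕ) : ℝ) * M + 2 * (D2 * (N : ℝ) ^ δ * (M : ℝ) ^ c) *
          (((M : ℝ) * ((2 * L : ℕ) : ℝ) / b + 2 * ((M : ℝ) + b)) * (1 + Real.log ((M : ℝ) + b)))) ≤
          (2 + 4 * D2 * C3) * (N : ℝ) ^ (2 * δ) * S := by
        have s1 := size99 hc0 hc1 hY hYL hLZ.le hM1 hML hb
        rw [← hR] at s1
        have h2δ : (N : ℝ) ^ (2 * δ) = (N : ℝ) ^ δ * (N : ℝ) ^ δ := by
          rw [← Real.rpow_add hN0]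
          congr 1
          ring
        have t1 : (L : ℝ) * (((2 * L : ℕ) : ℝ) * M) ≤ 2 * ((Z : ℝ) * N) := by
          have : (L : ℝ) ≤ Z := by exact_mod_cast hLZ.le
          push_cast
          have h7 : (L : ℝ) * ((M : ℝ) * L) ≤ Z * N := mul_le_mul this hML' (by positivity) (Nat.cast_nonneg _)
          nlinarith
        have t2 : (L : ℝ) * (2 * (D2 * (N : ℝ) ^ δ * (M : ℝ) ^ c) *
          (((M : ℝ) * ((2 * L : ℕ) : ℝ) / b + 2 * ((M : ℝ) + b)) * (1 + Real.log ((M : ℝ) + b)))) ≤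
            4 * D2 * C3 * (N : ℝ) ^ (2 * δ) * R := by
          have h8 : (L : ℝ) * (2 * (D2 * (N : ℝ) ^ δ * (M : ℝ) ^ c) *
            (((M : ℝ) * ((2 * L : ℕ) : ℝ) / b + 2 * ((M : ℝ) + b)) * (1 + Real.log ((M : ℝ) + b)))) =
            (4 * D2 * (N : ℝ) ^ δ) * ((L : ℝ) * ((M : ℝ) ^ c * ((M : ℝ) * L / b + M + b))) *
              (1 + Real.log ((M : ℝ) + b)) := by
            push_cast
            ring
          rw [h8]
          calc (4 * D2 * (N : ℝ) ^ δ) * ((L : ℝ) * ((M : ℝ) ^ c * ((M : ℝ) * L / b + M + b))) *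
              (1 + Real.log ((M : ℝ) + b)) ≤ (4 * D2 * (N : ℝ) ^ δ) * R * (C3 * (N : ℝ) ^ δ) := by
                refine mul_le_mul (mul_le_mul_of_nonneg_left s1 (by positivity)) q2 q0 (by positivity)
            _ = _ := by rw [h2δ]; ring
        have h2δ1 : (1 : ℝ) ≤ (N : ℝ) ^ (2 * δ) := Real.one_le_rpow hN1 (by positivity)
        have t3 : 2 * ((Z : ℝ) * N) ≤ 2 * (N : ℝ) ^ (2 * δ) * ((Z : ℝ) * N) := by
          have : (0 : ℝ) ≤ (Z : ℝ) * N := by positivity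
          nlinarith
        calc _ = (L : ℝ) * (((2 * L : ℕ) : ℝ) * M) + (L : ℝ) * (2 * (D2 * (N : ℝ) ^ δ * (M : ℝ) ^ c) *
          (((M : ℝ) * ((2 * L : ℕ) : ℝ) / b + 2 * ((M : ℝ) + b)) * (1 + Real.log ((M : ℝ) + b)))) := by ring
          _ ≤ 2 * (N : ℝ) ^ (2 * δ) * ((Z : ℝ) * N) + 4 * D2 * C3 * (N : ℝ) ^ (2 * δ) * R := by linarith
          _ ≤ (2 + 4 * D2 * C3) * (N : ℝ) ^ (2 * δ) * S := by
              rw [hS]
              have h9 : 0 ≤ 4 * D2 * C3 * (N : ℝ) ^ (2 * δ) * ((Z : ℝ) * N) := by positivity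
              have h10 : 0 ≤ 2 * (N : ℝ) ^ (2 * δ) * R := by positivity
              nlinarith
      obtain ⟨T, hT⟩ : ∃ T : ℝ, T = ((2 * L : ℕ) : ℝ) * M + 2 * (D2 * (N : ℝ) ^ δ * (M : ℝ) ^ c) *
          (((M : ℝ) * ((2 * L : ℕ) : ℝ) / b + 2 * ((M : ℝ) + b)) * (1 + Real.log ((M : ℝ) + b))) := ⟨_, rfl⟩
      rw [← hT] at q4 ⊢
      have q5 : Real.sqrt (∑ m ∈ Ioc L (2 * L), β m ^ 2) * Real.sqrt T ≤
          C1 * Real.sqrt (2 + 4 * D2 * C3) * (N : ℝ) ^ (2 * δ) * Real.sqrt S := by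
        have h1 : Real.sqrt (∑ m ∈ Ioc L (2 * L), β m ^ 2) ≤ Real.sqrt L * (C1 * (N : ℝ) ^ δ) := by
          calc _ ≤ Real.sqrt (L * (C1 * (N : ℝ) ^ δ) ^ 2) := Real.sqrt_le_sqrt q3
            _ = _ := by
                rw [Real.sqrt_mul (Nat.cast_nonneg L), Real.sqrt_sq (by positivity)]
        have h2 : Real.sqrt L * Real.sqrt T ≤ Real.sqrt (2 + 4 * D2 * C3) * (N : ℝ) ^ δ * Real.sqrt S := by
          rw [← Real.sqrt_mul (Nat.cast_nonneg L)]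
          refine (Real.sqrt_le_sqrt q4).trans (le_of_eq ?_)
          have h3 : (N : ℝ) ^ (2 * δ) = ((N : ℝ) ^ δ) ^ 2 := by
            rw [← Real.rpow_natCast, ← Real.rpow_mul hN0.le]
            congr 1
            push_cast
            ring
          rw [Real.sqrt_mul (by positivity), Real.sqrt_mul (by positivity), h3, Real.sqrt_sq (by positivity)]
        calc Real.sqrt (∑ m ∈ Ioc L (2 * L), β m ^ 2) * Real.sqrt T
            ≤ (Real.sqrt L * (C1 * (N : ℝ) ^ δ)) * Real.sqrt T :=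
              mul_le_mul_of_nonneg_right h1 (Real.sqrt_nonneg _)
          _ = (C1 * (N : ℝ) ^ δ) * (Real.sqrt L * Real.sqrt T) := by ring
          _ ≤ (C1 * (N : ℝ) ^ δ) * (Real.sqrt (2 + 4 * D2 * C3) * (N : ℝ) ^ δ * Real.sqrt S) :=
              mul_le_mul_of_nonneg_left h2 (by positivity)
          _ = C1 * Real.sqrt (2 + 4 * D2 * C3) * ((N : ℝ) ^ δ * (N : ℝ) ^ δ) * Real.sqrt S := by ring
          _ = _ := by
              rw [← Real.rpow_add hN0]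
              congr 3
              ring
      calc _ ≤ 6 * (C3 * (N : ℝ) ^ δ) * (C1 * Real.sqrt (2 + 4 * D2 * C3) * (N : ℝ) ^ (2 * δ) * Real.sqrt S) := by
            refine mul_le_mul (mul_le_mul_of_nonneg_left q1 (by norm_num)) q5 (by positivity) (by positivity)
        _ = 6 * C3 * (C1 * Real.sqrt (2 + 4 * D2 * C3)) * ((N : ℝ) ^ δ * (N : ℝ) ^ (2 * δ)) * Real.sqrt S := by ring
        _ = B := by
            rw [hB, ← Real.rpow_add hN0]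
            congr 3
            ring
  -- the sum over the blocks
  obtain ⟨I, hI⟩ : ∃ I : ℕ, I = Nat.log 2 N + 1 := ⟨_, rfl⟩
  have hNI : N < 2 ^ I := by
    rw [hI]
    exact Nat.lt_pow_succ_log_self (by norm_num) N
  have hIle : (I : ℝ) ≤ 2 * C3 * (N : ℝ) ^ δ := by
    have h1 : (2 : ℝ) ^ (Nat.log 2 N) ≤ N := by exact_mod_cast Nat.pow_log_le_self 2 (by omega : N ≠ 0)
    have h2 : Real.log ((2 : ℝ) ^ (Nat.log 2 N)) ≤ Real.log N := Real.log_le_log (by positivity) h1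
    rw [Real.log_pow] at h2
    have h3 := Real.log_two_gt_d9
    have h4 : (0 : ℝ) ≤ Nat.log 2 N := Nat.cast_nonneg _
    have h5 : 1 + Real.log N ≤ C3 * (N : ℝ) ^ δ := hlog N _ hN hN0 (by linarith)
    have h6 : 0 ≤ Real.log N := Real.log_nonneg hN1
    rw [hI]
    push_cast
    nlinarith
  have h1 : ∑ m ∈ Ioc Y Z, |α m| * ‖G99 g (N / m) ((a : ℝ) * m / b)‖ ≤
      ∑ m ∈ Ioc Y (2 ^ I * Y), β m * ‖G99 g (N / m) ((a : ℝ) * m / b)‖ := by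
    have h2 : ∀ m ∈ Ioc Y Z, |α m| * ‖G99 g (N / m) ((a : ℝ) * m / b)‖ =
        β m * ‖G99 g (N / m) ((a : ℝ) * m / b)‖ := by
      intro m hm
      rw [mem_Ioc] at hm
      rw [hβ]
      dsimp only
      rw [if_pos hm.2]
    rw [Finset.sum_congr rfl h2]
    refine Finset.sum_le_sum_of_subset_of_nonneg ?_ fun m _ _ => mul_nonneg (hβ0 m) (norm_nonneg _)
    refine Finset.Ioc_subset_Ioc_right ?_
    have h3 : 2 ^ I ≤ 2 ^ I * Y := Nat.le_mul_of_pos_right _ hY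
    omega
  refine h1.trans ?_
  rw [dyad99]
  have h2 : ∑ i ∈ range I, ∑ m ∈ Ioc (2 ^ i * Y) (2 * (2 ^ i * Y)), β m * ‖G99 g (N / m) ((a : ℝ) * m / b)‖ ≤
      ∑ i ∈ range I, B := by
    refine Finset.sum_le_sum fun i _ => hblock _ ?_
    exact Nat.le_mul_of_pos_left Y (by positivity)
  refine h2.trans ?_
  rw [Finset.sum_const, nsmul_eq_mul, card_range]
  calc (I : ℝ) * B ≤ (2 * C3 * (N : ℝ) ^ δ) * B := mul_le_mul_of_nonneg_right hIle hB0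
    _ = 2 * C3 * (6 * C3 * (C1 * Real.sqrt (2 + 4 * D2 * C3))) * ((N : ℝ) ^ δ * (N : ℝ) ^ (3 * δ)) *
        Real.sqrt S := by rw [hB]; ring
    _ = _ := by
        rw [← Real.rpow_add hN0]
        congr 3
        rw [hδ]
        ring

end Pool.Agent.Helper99.MB
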