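import Mathlib
import Pool.Agent.Helper92.CB.Defs
import Pool.Agent.Helper92.CB.COP
import Pool.Agent.Helper92.CB.BLK
import Pool.Agent.Helper92.GB.PV
import Pool.Agent.Helper92.GB.UR
import Pool.Agent.Helper92.GB.RB

/-!
# The weights on the signs of a special block with a weaker coupling (MP_b6b996_nt)
The construction of `Helper92/CB/BLK.lean` (same proof) with the coupling `z^(-γ) / √(5z)`, `0 ≤ γ < 1/2`, in place of `1 / √(5z)`: all moments get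
smaller by `z^(-γ/2)` for each prime, the bilinear form has size `z^(3/2 - γ)`.
-/

set_option autoImplicit false

namespace Pool.Agent.Helper99.MB

open Finset
open Pool.Agent.Helper92.GB (e ext F npi wt)
open Pool.Agent.Helper92.CB
open Pool.Agent.Helper92.CB.BLKaux
open Pool.Agent.Helper92.GB.RBaux

variable {z : ℕ} {L B : Finset ℕ}

lemma coreg (A : ℝ) (M₀ : ℕ) (hU : URP A M₀) (γ δ : ℝ) (hγ0 : 0 ≤ γ)
    (hz0 : M₀ ≤ z) (hz : 100 ≤ z) (h256 : 256 ≤ (z : ℝ) ^ δ) (h12 : 12 ≤ (z : ℝ) ^ (1 / 2 - γ))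
    (hL : L ⊆ Ioc (3 * z) (4 * z)) (hB : B ⊆ Ioc (3 * z) (4 * z)) (hdis : Disjoint L B)
    (hLc : (z : ℝ) ^ (1 - δ) ≤ 4 * L.card) (hBc : (z : ℝ) ^ (1 - δ) ≤ 4 * B.card) :
    ∃ w w0 : ({p // p ∈ L ∪ B} → ℤˣ) → ℝ, IsPW w ∧ IsPW w0 ∧
      (∀ x, w x ≤ (z : ℝ) ^ 2 * w0 x) ∧
      (∀ S : Finset ℕ, |mom (L ∪ B) w0 S| ≤
        (Real.sqrt (min 1 ((S ∩ (L ∪ B)).card / (z : ℝ) ^ (1 / 2 + γ)))) ^ (S ∩ (L ∪ B)).card) ∧
      ∀ f : ℕ → ℤˣ, 0 < w (rs (L ∪ B) f) →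
        (∀ (q : ℕ) (χ : DirichletCharacter ℂ q) (t : ℝ) (y : ℕ), 1 ≤ q →
          ‖∑ p ∈ L.filter (· ≤ y), ((f p : ℤ) : ℂ) * χ (p : ZMod q) * npi p t‖ ≤
            A * Real.sqrt z * Real.sqrt (Real.log (q * (2 + |t|)) * Real.log z)) ∧
        (∀ (q : ℕ) (χ : DirichletCharacter ℂ q) (t : ℝ) (y : ℕ), 1 ≤ q →
          ‖∑ p ∈ B.filter (· ≤ y), ((f p : ℤ) : ℂ) * χ (p : ZMod q) * npi p t‖ ≤
            A * Real.sqrt z * Real.sqrt (Real.log (q * (2 + |t|)) * Real.log z)) ∧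
        (z : ℝ) ^ (3 / 2 - γ - 4 * δ) ≤ ‖∑ p ∈ B, ∑ l ∈ L, ((f p : ℤ) : ℂ) * ((f l : ℤ) : ℂ) *
          e ((p * l : ℕ) * (1 / (4 * z + 1)))‖ := by
  classical
  have hzr : (100 : ℝ) ≤ z := by exact_mod_cast hz
  have hzpos : (0 : ℝ) < z := by linarith
  have hsz : 0 < Real.sqrt (5 * z) := Real.sqrt_pos.2 (by linarith)
  have hsz1 : 0 < Real.sqrt z := Real.sqrt_pos.2 hzpos
  have hzg0 : 0 < (z : ℝ) ^ (-γ) := Real.rpow_pos_of_pos hzpos _
  have hzg1 : (z : ℝ) ^ (-γ) ≤ 1 := Real.rpow_le_one_of_one_le_of_nonpos (by linarith) (by linarith)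
  set lam : ℝ := (z : ℝ) ^ (-γ) / Real.sqrt (5 * z) with hlam
  have hlam0 : 0 < lam := by positivity
  have hlam2 : lam ^ 2 * (5 * z) ≤ 1 := by
    have h1 : lam ^ 2 * (5 * z) = ((z : ℝ) ^ (-γ)) ^ 2 := by
      rw [hlam, div_pow, Real.sq_sqrt (by linarith)]
      field_simp
    rw [h1]
    exact pow_le_one₀ hzg0.le hzg1
  have hr0 : 0 < (z : ℝ) ^ (1 / 2 + γ) := Real.rpow_pos_of_pos hzpos _
  have hlamz : lam ≤ 1 / (z : ℝ) ^ (1 / 2 + γ) := by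
    have h1 : 1 / (z : ℝ) ^ (1 / 2 + γ) = (z : ℝ) ^ (-γ) / Real.sqrt z := by
      rw [Real.rpow_add hzpos, Real.rpow_neg hzpos.le, ← Real.sqrt_eq_rpow]
      field_simp
    rw [h1, hlam]
    exact div_le_div_of_nonneg_left hzg0.le hsz1 (Real.sqrt_le_sqrt (by linarith))
  have hlamz3 : (1 / 3) * (z : ℝ) ^ (-(1 / 2) - γ : ℝ) ≤ lam := by
    have h1 : Real.sqrt (5 * z) ≤ 3 * Real.sqrt z := by
      rw [Real.sqrt_le_iff]
      refine ⟨by positivity, ?_⟩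
      rw [mul_pow, Real.sq_sqrt hzpos.le]; linarith
    have h2 : (z : ℝ) ^ (-(1 / 2) - γ : ℝ) = (z : ℝ) ^ (-γ) * (Real.sqrt z)⁻¹ := by
      rw [sub_eq_add_neg, Real.rpow_add hzpos, Real.rpow_neg hzpos.le (1 / 2), ← Real.sqrt_eq_rpow, mul_comm]
    rw [h2, hlam]
    calc (1 / 3) * ((z : ℝ) ^ (-γ) * (Real.sqrt z)⁻¹) = (z : ℝ) ^ (-γ) / (3 * Real.sqrt z) := by field_simp
      _ ≤ _ := div_le_div_of_nonneg_left hzg0.le hsz h1
  have hlam4 : 4 / (z : ℝ) ≤ lam := by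
    refine le_trans ?_ hlamz3
    have h1 : (z : ℝ) ^ (-(1 / 2) - γ : ℝ) = (z : ℝ) ^ (1 / 2 - γ) / z := by
      have h2 : (-(1 / 2) - γ : ℝ) = (1 / 2 - γ) - 1 := by ring
      rw [h2, Real.rpow_sub hzpos, Real.rpow_one]
    rw [h1, ← mul_div_assoc]
    exact div_le_div_of_nonneg_right (by linarith) hzpos.le
  set K : ℝ := B.card * L.card with hK
  -- choice of tau
  have hchoice : ∃ τ : ℝ → ℝ, (τ = (fun x => Real.cos (2 * Real.pi * x)) ∨
      τ = (fun x => Real.sin (2 * Real.pi * x))) ∧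
      K / 2 ≤ ∑ p ∈ B, ∑ l ∈ L, τ (p * l / ((4 * z + 1 : ℕ) : ℝ)) ^ 2 := by
    have hsum : ∑ p ∈ B, ∑ l ∈ L, (Real.cos (2 * Real.pi * (p * l / ((4 * z + 1 : ℕ) : ℝ)))) ^ 2 +
        ∑ p ∈ B, ∑ l ∈ L, (Real.sin (2 * Real.pi * (p * l / ((4 * z + 1 : ℕ) : ℝ)))) ^ 2 =
        K := by
      rw [← Finset.sum_add_distrib]
      simp_rw [← Finset.sum_add_distrib, Real.cos_sq_add_sin_sq]
      simp [hK]
    by_cases hcs : K / 2 ≤
        ∑ p ∈ B, ∑ l ∈ L, (Real.cos (2 * Real.pi * (p * l / ((4 * z + 1 : ℕ) : ℝ)))) ^ 2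
    · exact ⟨_, Or.inl rfl, hcs⟩
    · refine ⟨_, Or.inr rfl, ?_⟩
      push Not at hcs
      linarith
  obtain ⟨τ, hτ, hT⟩ := hchoice
  have hKz : (z : ℝ) ^ (2 - 2 * δ) ≤ 16 * K := by
    have e1 : (z : ℝ) ^ (2 - 2 * δ) = (z : ℝ) ^ (1 - δ) * (z : ℝ) ^ (1 - δ) := by
      rw [← Real.rpow_add hzpos]; congr 1; ring
    rw [e1]
    calc _ ≤ (4 * (B.card : ℝ)) * (4 * L.card) :=
          mul_le_mul hBc hLc (Real.rpow_nonneg hzpos.le _) (by positivity)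
      _ = _ := by rw [hK]; ring
  have hK0 : 0 < K := by
    have : 0 < (z : ℝ) ^ (2 - 2 * δ) := Real.rpow_pos_of_pos hzpos _
    linarith
  set τ' : ℕ → ℕ → ℝ := fun p l => τ (p * l / ((4 * z + 1 : ℕ) : ℝ)) with hτ'
  have hτ1 : ∀ p l, |τ' p l| ≤ 1 := fun p l => tau_le τ hτ _
  have hop : ∀ v : ℕ → ℝ, ∑ l ∈ L, (∑ p ∈ B, (lam * τ' p l) * v p) ^ 2 ≤ ∑ p ∈ B, v p ^ 2 := by
    intro v
    have h1 := Pool.Agent.Helper92.GB.PV (4 * z + 1) (by omega) L B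
      (fun l hl => by have := Finset.mem_Ioc.1 (hL hl); omega)
      (fun l hl => by have := Finset.mem_Ioc.1 (hB hl); omega) (fun p => (v p : ℂ)) τ hτ
    have h2 : ∀ l ∈ L, (∑ p ∈ B, (lam * τ' p l) * v p) ^ 2 =
        lam ^ 2 * ‖∑ p ∈ B, (v p : ℂ) * ((τ (p * l / ((4 * z + 1 : ℕ) : ℝ)) : ℝ) : ℂ)‖ ^ 2 := by
      intro l _
      have e1 : ∑ p ∈ B, (v p : ℂ) * ((τ (p * l / ((4 * z + 1 : ℕ) : ℝ)) : ℝ) : ℂ) =
          ((∑ p ∈ B, τ' p l * v p : ℝ) : ℂ) := by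
        rw [hτ']
        push_cast
        refine Finset.sum_congr rfl fun p _ => ?_
        ring
      rw [e1, Complex.norm_real, Real.norm_eq_abs, sq_abs, ← mul_pow, Finset.mul_sum]
      congr 1
      refine Finset.sum_congr rfl fun p _ => by ring
    rw [Finset.sum_congr rfl h2, ← Finset.mul_sum]
    have h3 : ∑ p ∈ B, ‖((v p : ℝ) : ℂ)‖ ^ 2 = ∑ p ∈ B, v p ^ 2 := by
      refine Finset.sum_congr rfl fun p _ => ?_
      rw [Complex.norm_real, Real.norm_eq_abs, sq_abs]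
    rw [h3] at h1
    have h4 : 0 ≤ ∑ p ∈ B, v p ^ 2 := Finset.sum_nonneg fun p _ => sq_nonneg _
    calc _ ≤ lam ^ 2 * (((4 * z + 1 : ℕ) : ℝ) * ∑ p ∈ B, v p ^ 2) :=
          mul_le_mul_of_nonneg_left h1 (sq_nonneg _)
      _ ≤ lam ^ 2 * ((5 * z) * ∑ p ∈ B, v p ^ 2) := by
          refine mul_le_mul_of_nonneg_left (mul_le_mul_of_nonneg_right ?_ h4) (sq_nonneg _)
          push_cast; linarith
      _ = (lam ^ 2 * (5 * z)) * ∑ p ∈ B, v p ^ 2 := by ring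
      _ ≤ 1 * ∑ p ∈ B, v p ^ 2 := mul_le_mul_of_nonneg_right hlam2 h4
      _ = _ := one_mul _
  obtain ⟨w0, hw0, m1, m2, m3⟩ := COP L B hdis (fun p l => lam * τ' p l) lam hlam0.le
    (fun p _ l _ => by
      rw [abs_mul, abs_of_pos hlam0]
      have := mul_le_mul_of_nonneg_left (hτ1 p l) hlam0.le
      linarith) hop
  have zL : ∀ S : Finset ℕ, S ⊆ L → S.Nonempty → mom (L ∪ B) w0 S = 0 := by
    intro S hS hne
    have h1 : S ∩ B = ∅ := Finset.disjoint_iff_inter_eq_empty.1 (hdis.mono_left hS)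
    have h2 : S ∩ L = S := Finset.inter_eq_left.2 hS
    have h3 := m2 S
    rw [h1, h2, Finset.card_empty, Nat.cast_zero, mul_zero, min_eq_right (by norm_num),
      zero_pow (Finset.card_ne_zero.2 hne)] at h3
    exact abs_eq_zero.1 (le_antisymm h3 (abs_nonneg _))
  have zB : ∀ S : Finset ℕ, S ⊆ B → S.Nonempty → mom (L ∪ B) w0 S = 0 := by
    intro S hS hne
    have h1 : S ∩ L = ∅ := Finset.disjoint_iff_inter_eq_empty.1 (hdis.symm.mono_left hS)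
    have h2 : S ∩ B = S := Finset.inter_eq_left.2 hS
    have h3 := m1 S
    rw [h1, h2, Finset.card_empty, Nat.cast_zero, mul_zero, min_eq_right (by norm_num),
      zero_pow (Finset.card_ne_zero.2 hne)] at h3
    exact abs_eq_zero.1 (le_antisymm h3 (abs_nonneg _))
  have pL := bad_prob_w A M₀ hU hz0 (by omega) hL Finset.subset_union_left w0 hw0.2 zL
  have pB := bad_prob_w A M₀ hU hz0 (by omega) hB Finset.subset_union_right w0 hw0.2 zB
  set Y : ({p // p ∈ L ∪ B} → ℤˣ) → ℝ := fun x =>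
    ∑ p ∈ B, ∑ l ∈ L, ((xt x p : ℤ) : ℝ) * ((xt x l : ℤ) : ℝ) * τ' p l with hY
  have hYK : ∀ x, Y x ≤ K := by
    intro x
    have h1 : ∀ n, |((xt x n : ℤ) : ℝ)| = 1 := by
      intro n
      rcases xt_mem x n with h | h <;> rw [h] <;> norm_num
    calc Y x ≤ ∑ p ∈ B, ∑ l ∈ L, (1 : ℝ) := by
          refine Finset.sum_le_sum fun p _ => Finset.sum_le_sum fun l _ => ?_
          refine (le_abs_self _).trans ?_
          rw [abs_mul, abs_mul, h1, h1, one_mul, one_mul]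
          exact hτ1 p l
      _ = K := by simp [hK]
  set μ : ℝ := Real.exp (-1) * lam * K / 2 with hμ
  have hμ0 : 0 ≤ μ := by positivity
  have hE : μ ≤ ∑ x, w0 x * Y x := by
    have e1 : ∑ x, w0 x * Y x = ∑ p ∈ B, ∑ l ∈ L, τ' p l * mom (L ∪ B) w0 {p, l} := by
      have e2 : ∀ p ∈ B, ∀ l ∈ L, τ' p l * mom (L ∪ B) w0 {p, l} =
          ∑ x, w0 x * (((xt x p : ℤ) : ℝ) * ((xt x l : ℤ) : ℝ) * τ' p l) := by
        intro p hp l hl
        have hne : p ≠ l := fun h => Finset.disjoint_left.1 hdis hl (h ▸ hp)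
        rw [mom_eq w0 {p, l} (by
          intro n hn
          rcases Finset.mem_insert.1 hn with h | h
          · rw [h]; exact Finset.mem_union_right _ hp
          · rw [Finset.mem_singleton.1 h]; exact Finset.mem_union_left _ hl), Finset.mul_sum]
        refine Finset.sum_congr rfl fun x _ => ?_
        rw [Finset.prod_pair hne]; ring
      rw [Finset.sum_congr rfl fun p hp => Finset.sum_congr rfl fun l hl => e2 p hp l hl]
      rw [hY]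
      simp only [Finset.mul_sum]
      rw [Finset.sum_comm]
      refine Finset.sum_congr rfl fun p _ => ?_
      rw [Finset.sum_comm]
    rw [e1]
    calc μ = Real.exp (-1) * lam * (K / 2) := by rw [hμ]; ring
      _ ≤ Real.exp (-1) * lam * ∑ p ∈ B, ∑ l ∈ L, τ (p * l / ((4 * z + 1 : ℕ) : ℝ)) ^ 2 :=
          mul_le_mul_of_nonneg_left hT (by positivity)
      _ = ∑ p ∈ B, ∑ l ∈ L, Real.exp (-1) * (lam * (τ' p l) ^ 2) := by
          rw [Finset.mul_sum]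
          refine Finset.sum_congr rfl fun p _ => ?_
          rw [Finset.mul_sum]
          refine Finset.sum_congr rfl fun l _ => ?_
          rw [hτ']; ring
      _ ≤ _ := by
          refine Finset.sum_le_sum fun p hp => Finset.sum_le_sum fun l hl => ?_
          rw [m3 p hp l hl]
          have := mul_le_mul_of_nonneg_left (sinh_mul_ge lam (τ' p l) hlam0.le)
            (Real.exp_pos (-1)).le
          linarith
  have hgood := good_ev w0 hw0 (fun x => BadL L A z (xt x)) (fun x => BadL B A z (xt x)) Y K μ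
    (1 / (z : ℝ) ^ 10) hYK hK0 hμ0 hE pL pB
  set G : ({p // p ∈ L ∪ B} → ℤˣ) → Prop := fun x =>
    ¬ BadL L A z (xt x) ∧ ¬ BadL B A z (xt x) ∧ μ / 2 ≤ Y x with hG
  set P : ℝ := ∑ x, w0 x * (if G x then 1 else 0) with hP
  have hexp : (1 / 3 : ℝ) ≤ Real.exp (-1) := by
    rw [Real.exp_neg, ← one_div]
    exact one_div_le_one_div_of_le (Real.exp_pos 1) (by
      have := Real.exp_one_lt_d9; linarith)
  have hPz : 1 / (z : ℝ) ^ 2 ≤ P := by
    refine le_trans ?_ hgood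
    have e1 : μ / (2 * K) = Real.exp (-1) * lam / 4 := by
      rw [hμ]; field_simp; norm_num
    rw [e1]
    have e2 : (1 / 3) * (4 / (z : ℝ)) ≤ Real.exp (-1) * lam :=
      mul_le_mul hexp hlam4 (by positivity) (by positivity)
    have e3 : 1 / (z : ℝ) ^ 10 ≤ 1 / (z : ℝ) ^ 2 :=
      one_div_le_one_div_of_le (by positivity) (pow_le_pow_right₀ (by linarith) (by norm_num))
    have e4 : 1 / (z : ℝ) ^ 2 ≤ (1 / 100) * (1 / z) := by
      rw [show (1 / 100) * (1 / (z : ℝ)) = 1 / (100 * z) by field_simp]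
      exact one_div_le_one_div_of_le (by positivity) (by nlinarith)
    have e5 : (1 / 3) * (4 / (z : ℝ)) = (4 / 3) * (1 / z) := by ring
    have e6 : 0 < 1 / (z : ℝ) := by positivity
    linarith
  have hP0 : 0 < P := lt_of_lt_of_le (by positivity) hPz
  refine ⟨fun x => w0 x * (if G x then 1 else 0) / P, w0, ⟨?_, ?_⟩, hw0, ?_, ?_, ?_⟩
  · intro x
    have := hw0.1 x
    simp only
    split_ifs <;> positivity
  · rw [← Finset.sum_div, ← hP, div_self hP0.ne']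
  · intro x
    have h0 := hw0.1 x
    have h1 : 1 / P ≤ (z : ℝ) ^ 2 := by
      rw [div_le_iff₀ hP0]
      have := mul_le_mul_of_nonneg_left hPz (by positivity : (0 : ℝ) ≤ (z : ℝ) ^ 2)
      have h2 : (z : ℝ) ^ 2 * (1 / (z : ℝ) ^ 2) = 1 := by field_simp
      linarith
    simp only
    split_ifs
    · calc w0 x * 1 / P = (1 / P) * w0 x := by ring
        _ ≤ _ := mul_le_mul_of_nonneg_right h1 h0
    · have : 0 ≤ (z : ℝ) ^ 2 * w0 x := by positivity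
      simpa using this
  · intro S
    have hst : (S ∩ (L ∪ B)).card = (S ∩ B).card + (S ∩ L).card := by
      rw [Finset.inter_union_distrib_left, Finset.card_union_of_disjoint
        ((hdis.mono_left Finset.inter_subset_right).mono_right Finset.inter_subset_right), add_comm]
    exact numb ((z : ℝ) ^ (1 / 2 + γ)) lam hr0 hlam0.le hlamz _ _ _ _ hst (m1 S) (m2 S)
  · intro f hf
    have hGf : G (rs (L ∪ B) f) := by
      by_contra hcon
      simp only at hf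
      rw [if_neg hcon, mul_zero, zero_div] at hf
      exact lt_irrefl _ hf
    have hxt : ∀ p ∈ L ∪ B, xt (rs (L ∪ B) f) p = ((f p : ℤˣ) : ℤ) := by
      intro p hp
      exact xt_val (rs (L ∪ B) f) ⟨p, hp⟩
    obtain ⟨g1, g2, g3⟩ := hGf
    refine ⟨?_, ?_, ?_⟩
    · intro q χ t y hq
      by_contra hcon
      push Not at hcon
      refine g1 ((BadL_congr A (g := fun p => ((f p : ℤˣ) : ℤ)) ?_).1 ⟨q, χ, t, y, hq, hcon⟩)
      intro p hp
      exact (hxt p (Finset.mem_union_left _ hp)).symm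
    · intro q χ t y hq
      by_contra hcon
      push Not at hcon
      refine g2 ((BadL_congr A (g := fun p => ((f p : ℤˣ) : ℤ)) ?_).1 ⟨q, χ, t, y, hq, hcon⟩)
      intro p hp
      exact (hxt p (Finset.mem_union_right _ hp)).symm
    · refine le_trans ?_ (tau_norm L B (fun p => ((f p : ℤˣ) : ℤ)) τ hτ)
      have e1 : ∑ p ∈ B, ∑ l ∈ L, (((f p : ℤˣ) : ℤ) : ℝ) * (((f l : ℤˣ) : ℤ) : ℝ) *
          τ (p * l / ((4 * z + 1 : ℕ) : ℝ)) = Y (rs (L ∪ B) f) := by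
        rw [hY]
        refine Finset.sum_congr rfl fun p hp => Finset.sum_congr rfl fun l hl => ?_
        rw [hxt p (Finset.mem_union_right _ hp), hxt l (Finset.mem_union_left _ hl)]
      rw [e1]
      refine le_trans ?_ g3
      have e2 : (1 / 3) * ((1 / 3) * (z : ℝ) ^ (-(1 / 2) - γ : ℝ)) * ((z : ℝ) ^ (2 - 2 * δ) / 16) ≤
          Real.exp (-1) * lam * K := by
        refine mul_le_mul (mul_le_mul hexp hlamz3 (by positivity) (Real.exp_pos _).le) ?_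
          (by positivity) (by positivity)
        linarith
      have e3 : (z : ℝ) ^ (-(1 / 2) - γ : ℝ) * (z : ℝ) ^ (2 - 2 * δ) =
          (z : ℝ) ^ (3 / 2 - γ - 4 * δ) * ((z : ℝ) ^ δ * (z : ℝ) ^ δ) := by
        rw [← Real.rpow_add hzpos, ← Real.rpow_add hzpos, ← Real.rpow_add hzpos]
        congr 1; ring
      have e4 : (256 : ℝ) * 256 ≤ (z : ℝ) ^ δ * (z : ℝ) ^ δ :=
        mul_le_mul h256 h256 (by norm_num) (by linarith)
      have e5 : 0 ≤ (z : ℝ) ^ (3 / 2 - γ - 4 * δ) := Real.rpow_nonneg hzpos.le _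
      have e6 : (z : ℝ) ^ (3 / 2 - γ - 4 * δ) * (256 * 256) ≤
          (z : ℝ) ^ (3 / 2 - γ - 4 * δ) * ((z : ℝ) ^ δ * (z : ℝ) ^ δ) :=
        mul_le_mul_of_nonneg_left e4 e5
      have e7 : (1 / 3) * ((1 / 3) * (z : ℝ) ^ (-(1 / 2) - γ : ℝ)) * ((z : ℝ) ^ (2 - 2 * δ) / 16) =
          (1 / 144) * ((z : ℝ) ^ (-(1 / 2) - γ : ℝ) * (z : ℝ) ^ (2 - 2 * δ)) := by ring
      rw [hμ]
      rw [e7, e3] at e2
      linarith

theorem BLKg (γ : ℝ) (hγ0 : 0 ≤ γ) (hγ1 : γ < 1 / 2) : ∃ C : ℝ, 0 < C ∧ ∀ δ : ℝ, 0 < δ → δ ≤ 1 / 10 →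
    ∃ z₀ : ℕ, ∀ z : ℕ, z₀ ≤ z →
    ∀ L B : Finset ℕ, L ⊆ Ioc (3 * z) (4 * z) → B ⊆ Ioc (3 * z) (4 * z) → Disjoint L B →
    (z : ℝ) ^ (1 - δ) ≤ 4 * L.card → (z : ℝ) ^ (1 - δ) ≤ 4 * B.card →
    ∃ w w0 : ({p // p ∈ L ∪ B} → ℤˣ) → ℝ, IsPW w ∧ IsPW w0 ∧
      (∀ x, w x ≤ (z : ℝ) ^ 2 * w0 x) ∧
      (∀ S : Finset ℕ, |mom (L ∪ B) w0 S| ≤
        (Real.sqrt (min 1 ((S ∩ (L ∪ B)).card / (z : ℝ) ^ (1 / 2 + γ)))) ^ (S ∩ (L ∪ B)).card) ∧
      ∀ f : ℕ → ℤˣ, 0 < w (rs (L ∪ B) f) →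
        (∀ (q : ℕ) (χ : DirichletCharacter ℂ q) (t : ℝ) (y : ℕ), 1 ≤ q →
          ‖∑ p ∈ L.filter (· ≤ y), ((f p : ℤ) : ℂ) * χ (p : ZMod q) * npi p t‖ ≤
            C * Real.sqrt z * Real.sqrt (Real.log (q * (2 + |t|)) * Real.log z)) ∧
        (∀ (q : ℕ) (χ : DirichletCharacter ℂ q) (t : ℝ) (y : ℕ), 1 ≤ q →
          ‖∑ p ∈ B.filter (· ≤ y), ((f p : ℤ) : ℂ) * χ (p : ZMod q) * npi p t‖ ≤
            C * Real.sqrt z * Real.sqrt (Real.log (q * (2 + |t|)) * Real.log z)) ∧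
        (z : ℝ) ^ (3 / 2 - γ - 4 * δ) ≤ ‖∑ p ∈ B, ∑ l ∈ L, ((f p : ℤ) : ℂ) * ((f l : ℤ) : ℂ) *
          e ((p * l : ℕ) * (1 / (4 * z + 1)))‖ := by
  obtain ⟨A, M₀, hA, _, hU⟩ := Pool.Agent.Helper92.GB.UR
  refine ⟨A, hA, fun δ hδ _ => ?_⟩
  have h2 : ∀ᶠ x : ℝ in Filter.atTop, 256 ≤ x ^ δ :=
    (tendsto_rpow_atTop hδ).eventually_ge_atTop 256
  have h2' : ∀ᶠ x : ℝ in Filter.atTop, 12 ≤ x ^ (1 / 2 - γ) :=
    (tendsto_rpow_atTop (by linarith)).eventually_ge_atTop 12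
  have h3 : ∀ᶠ n : ℕ in Filter.atTop, M₀ ≤ n ∧ 100 ≤ n ∧ 256 ≤ (n : ℝ) ^ δ ∧ 12 ≤ (n : ℝ) ^ (1 / 2 - γ) := by
    filter_upwards [Filter.eventually_ge_atTop M₀, Filter.eventually_ge_atTop 100,
      tendsto_natCast_atTop_atTop.eventually h2, tendsto_natCast_atTop_atTop.eventually h2'] with n a b d d'
    exact ⟨a, b, d, d'⟩
  obtain ⟨z₀, hz₀⟩ := Filter.eventually_atTop.1 h3
  refine ⟨z₀, fun z hz L B hL hB hdis hLc hBc => ?_⟩
  obtain ⟨a, b, d, d'⟩ := hz₀ z hz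
  exact coreg A M₀ hU γ δ hγ0 a b d d' hL hB hdis hLc hBc

end Pool.Agent.Helper99.MB
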