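import Mathlib
import Pool.Agent.Helper92.CB.Defs
import Pool.Agent.Helper92.CB.MOM

/-!
# The moment bound for one sum (`k = 1`) with a special block of small coupling (MP_b6b996_nt)
Second moment: the pairs `(n, n')` with `v` special primes of `n` not in `n'` and `j ≤ v` special primes of `n'` not in `n`; at most `3N/v!` numbers `n`, for each at most
`(z^j/j!) 2^(..)` numbers `n'`, and `z^j ≤ 2N`. The term is at most `c^(v+j)`, `c = b z^(-(1/2+γ)/2)`, so the sum is `≤ 6 N 2^(..) (2N)^(1/2-γ) e^(2b)`.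
-/

set_option autoImplicit false

namespace Pool.Agent.Helper99.MB

open Finset
open Pool.Agent.Helper92.GB (e ext F npi wt)
open Pool.Agent.Helper92.CB

/-- for one shift the set `kap` is the set of prime factors -/
lemma kap1_99 {h : Fin 1 → ℕ} {N n : ℕ} (hle : h 0 ≤ N) (hn1 : 1 ≤ n) (hnN : n ≤ N) :
    kap h N n = (n + h 0).primeFactors := by
  ext p
  rw [kap, Finset.mem_filter, Finset.mem_Icc, Nat.mem_primeFactors]
  have hu : (univ : Finset (Fin 1)) = {0} := rfl
  rw [hu, Finset.filter_singleton]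
  constructor
  · rintro ⟨_, hp, ho⟩
    refine ⟨hp, ?_, by omega⟩
    by_contra hnd
    rw [if_neg hnd, Finset.card_empty] at ho
    exact absurd ho (by decide)
  · rintro ⟨hp, hd, _⟩
    have h2 := Nat.le_of_dvd (by omega) hd
    refine ⟨⟨hp.one_lt.le, by omega⟩, hp, ?_⟩
    rw [if_pos hd, Finset.card_singleton]
    exact odd_one

private def vq (S : Finset ℕ) (P : ℕ → Finset ℕ) (n n' : ℕ) : Finset ℕ := (P n \ P n') ∩ S

private theorem term99 (S Low : Finset ℕ) (P : ℕ → Finset ℕ) (ρ : ℕ → ℝ) (c : ℝ) (_ : 0 ≤ c)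
    (hρS : ∀ p ∈ S, 0 ≤ ρ p ∧ ρ p ≤ 1 ∧ ρ p ≤ c) (hρL : ∀ p ∈ Low, 0 ≤ ρ p ∧ ρ p ≤ 1) (n n' : ℕ)
    (hsub : symmDiff (P n) (P n') ⊆ S ∪ Low) :
    ∏ p ∈ symmDiff (P n) (P n'), ρ p ≤ c ^ ((vq S P n n').card + (vq S P n' n).card) := by
  classical
  set R := symmDiff (P n) (P n') ∩ S with hR
  have hRc : R.card = (vq S P n n').card + (vq S P n' n).card := by
    rw [← Finset.card_union_of_disjoint]
    · congr 1
      rw [hR, vq, vq, ← Finset.union_inter_distrib_right]
      rfl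
    · rw [Finset.disjoint_left]
      intro p hp hp'
      rw [vq, Finset.mem_inter, Finset.mem_sdiff] at hp hp'
      exact hp'.1.2 hp.1.1
  have hRX : R ⊆ symmDiff (P n) (P n') := Finset.inter_subset_left
  have hRS : R ⊆ S := Finset.inter_subset_right
  have h01 : ∀ p ∈ symmDiff (P n) (P n'), 0 ≤ ρ p ∧ ρ p ≤ 1 := by
    intro p hp
    rcases Finset.mem_union.mp (hsub hp) with h1 | h1
    · exact ⟨(hρS p h1).1, (hρS p h1).2.1⟩
    · exact hρL p h1
  have h4 : 0 ≤ ∏ p ∈ R, ρ p := Finset.prod_nonneg (fun p hp => (h01 p (hRX hp)).1)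
  have h2 : ∏ p ∈ symmDiff (P n) (P n'), ρ p ≤ ∏ p ∈ R, ρ p := by
    rw [← Finset.prod_sdiff hRX]
    have h3 : ∏ p ∈ symmDiff (P n) (P n') \ R, ρ p ≤ 1 := by
      apply Finset.prod_le_one
      · intro p hp
        exact (h01 p (Finset.sdiff_subset hp)).1
      · intro p hp
        exact (h01 p (Finset.sdiff_subset hp)).2
    calc _ ≤ 1 * ∏ p ∈ R, ρ p := mul_le_mul_of_nonneg_right h3 h4
      _ = _ := one_mul _
  refine h2.trans ?_
  rw [← hRc]
  calc ∏ p ∈ R, ρ p ≤ ∏ _p ∈ R, c :=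
        Finset.prod_le_prod (fun p hp => (h01 p (hRX hp)).1) (fun p hp => (hρS p (hRS hp)).2.2)
    _ = c ^ R.card := Finset.prod_const c

private theorem mult99 {N s h0 : ℕ} (hs : 1 ≤ s) (hh : h0 ≤ N) :
    (((Icc 1 N).filter fun n => s ∣ n + h0).card : ℝ) ≤ 3 * N / s := by
  have hs0 : (0 : ℝ) < s := by exact_mod_cast hs
  rcases ((Icc 1 N).filter fun n => s ∣ n + h0).eq_empty_or_nonempty with he | hne
  · rw [he, Finset.card_empty]
    push_cast
    positivity
  · have hs2 : s ≤ 2 * N := by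
      obtain ⟨n, hn⟩ := hne
      rw [Finset.mem_filter, Finset.mem_Icc] at hn
      have := Nat.le_of_dvd (by omega) hn.2
      omega
    have h1 : ((Icc 1 N).filter fun n => s ∣ n + h0).card ≤ (N + h0) / s - h0 / s := by
      rw [← Nat.card_Ioc]
      apply Finset.card_le_card_of_injOn (fun n => (n + h0) / s)
      · intro n hn
        rw [Finset.mem_coe, Finset.mem_filter, Finset.mem_Icc] at hn
        rw [Finset.mem_coe, Finset.mem_Ioc]
        obtain ⟨⟨hn1, hnN⟩, q, hq⟩ := hn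
        constructor
        · simp only
          rw [hq, Nat.mul_div_cancel_left _ hs, Nat.div_lt_iff_lt_mul hs]
          rw [mul_comm q s, ← hq]
          omega
        · exact Nat.div_le_div_right (by omega)
      · intro n hn m hm hnm
        rw [Finset.mem_coe, Finset.mem_filter, Finset.mem_Icc] at hn hm
        obtain ⟨⟨hn1, hnN⟩, q, hq⟩ := hn
        obtain ⟨⟨hm1, hmN⟩, r, hr⟩ := hm
        simp only at hnm
        rw [hq, hr, Nat.mul_div_cancel_left _ hs, Nat.mul_div_cancel_left _ hs] at hnm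
        rw [hnm, ← hr] at hq
        omega
    have h2 : h0 / s ≤ (N + h0) / s := Nat.div_le_div_right (by omega)
    have h3 : (((N + h0) / s - h0 / s : ℕ) : ℝ) ≤ N / s + 1 := by
      rw [Nat.cast_sub h2]
      have h4 : (((N + h0) / s : ℕ) : ℝ) ≤ ((N + h0 : ℕ) : ℝ) / s := Nat.cast_div_le
      have h5 : (h0 : ℝ) ≤ s * (((h0 / s : ℕ) : ℝ) + 1) := by
        have := Nat.lt_mul_div_succ h0 hs
        exact_mod_cast this.le
      have h6 : (h0 : ℝ) / s ≤ ((h0 / s : ℕ) : ℝ) + 1 := by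
        rw [div_le_iff₀ hs0]
        linarith
      push_cast at h4
      rw [add_div] at h4
      linarith
    have h7 : (1 : ℝ) ≤ 2 * N / s := by
      rw [le_div_iff₀ hs0, one_mul]
      exact_mod_cast hs2
    calc (((Icc 1 N).filter fun n => s ∣ n + h0).card : ℝ)
        ≤ (((N + h0) / s - h0 / s : ℕ) : ℝ) := by exact_mod_cast h1
      _ ≤ N / s + 1 := h3
      _ ≤ N / s + 2 * N / s := by linarith
      _ = 3 * N / s := by ring

private theorem Scard99 {z : ℕ} {S : Finset ℕ} (hS : ∀ p ∈ S, p.Prime ∧ 3 * z < p ∧ p ≤ 4 * z) :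
    S.card ≤ z := by
  have h1 : S ⊆ Finset.Ioc (3 * z) (4 * z) := by
    intro p hp
    rw [Finset.mem_Ioc]
    exact (hS p hp).2
  have h2 := Finset.card_le_card h1
  rw [Nat.card_Ioc] at h2
  omega

private theorem choose99 {z j : ℕ} {S : Finset ℕ}
    (hS : ∀ p ∈ S, p.Prime ∧ 3 * z < p ∧ p ≤ 4 * z) :
    ((S.powersetCard j).card : ℝ) ≤ (z : ℝ) ^ j / j.factorial := by
  rw [Finset.card_powersetCard]
  refine (Nat.choose_le_pow_div (α := ℝ) j S.card).trans ?_
  have h1 : (S.card : ℝ) ≤ z := by exact_mod_cast Scard99 hS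
  gcongr

private theorem countN99 {N z h0 v : ℕ} (hz : 1 ≤ z) (hh : h0 ≤ N) {S : Finset ℕ}
    (hS : ∀ p ∈ S, p.Prime ∧ 3 * z < p ∧ p ≤ 4 * z) :
    (((Icc 1 N).filter fun n => ∃ V ∈ S.powersetCard v, (∏ p ∈ V, p) ∣ n + h0).card : ℝ) ≤
      3 * N / v.factorial := by
  have hz0 : (0 : ℝ) < z := by exact_mod_cast hz
  have hsub : ((Icc 1 N).filter fun n => ∃ V ∈ S.powersetCard v, (∏ p ∈ V, p) ∣ n + h0) ⊆
      (S.powersetCard v).biUnion fun V => (Icc 1 N).filter fun n => (∏ p ∈ V, p) ∣ n + h0 := by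
    intro n hn
    rw [Finset.mem_filter] at hn
    obtain ⟨hn1, V, hV, hdvd⟩ := hn
    rw [Finset.mem_biUnion]
    exact ⟨V, hV, Finset.mem_filter.mpr ⟨hn1, hdvd⟩⟩
  have h1 : ∀ V ∈ S.powersetCard v,
      (((Icc 1 N).filter fun n => (∏ p ∈ V, p) ∣ n + h0).card : ℝ) ≤ 3 * N / (3 * z) ^ v := by
    intro V hV
    rw [Finset.mem_powersetCard] at hV
    have hpos : 1 ≤ ∏ p ∈ V, p := Finset.prod_pos (fun p hp => (hS p (hV.1 hp)).1.pos)
    refine (mult99 hpos hh).trans ?_
    apply div_le_div_of_nonneg_left (by positivity) (by positivity)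
    have h2 : ∏ _p ∈ V, (3 * z) ≤ ∏ p ∈ V, p :=
      Finset.prod_le_prod' (fun p hp => (hS p (hV.1 hp)).2.1.le)
    rw [Finset.prod_const, hV.2] at h2
    exact_mod_cast h2
  calc (((Icc 1 N).filter fun n => ∃ V ∈ S.powersetCard v, (∏ p ∈ V, p) ∣ n + h0).card : ℝ)
      ≤ (((S.powersetCard v).biUnion fun V =>
          (Icc 1 N).filter fun n => (∏ p ∈ V, p) ∣ n + h0).card : ℝ) := by
        exact_mod_cast Finset.card_le_card hsub
    _ ≤ ((∑ V ∈ S.powersetCard v, ((Icc 1 N).filter fun n => (∏ p ∈ V, p) ∣ n + h0).card : ℕ) : ℝ) := by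
        exact_mod_cast Finset.card_biUnion_le
    _ = ∑ V ∈ S.powersetCard v, (((Icc 1 N).filter fun n => (∏ p ∈ V, p) ∣ n + h0).card : ℝ) := by
        push_cast
        rfl
    _ ≤ ∑ _V ∈ S.powersetCard v, 3 * (N : ℝ) / (3 * z) ^ v := Finset.sum_le_sum h1
    _ = (S.powersetCard v).card * (3 * (N : ℝ) / (3 * z) ^ v) := by
        rw [Finset.sum_const, nsmul_eq_mul]
    _ ≤ ((z : ℝ) ^ v / v.factorial) * (3 * (N : ℝ) / (3 * z) ^ v) :=
        mul_le_mul_of_nonneg_right (choose99 hS) (by positivity)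
    _ = (3 * N / v.factorial) * (1 / 3 ^ v) := by
        rw [mul_pow]
        field_simp
    _ ≤ (3 * N / v.factorial) * 1 := by
        apply mul_le_mul_of_nonneg_left _ (by positivity)
        rw [div_le_one (by positivity)]
        exact one_le_pow₀ (by norm_num)
    _ = 3 * N / v.factorial := mul_one _

/-- the number of `n'` for given `n`; and `z ^ j ≤ 2 N` if there is one -/
private theorem countG99 {N z τ h0 : ℕ} (hh : h0 ≤ N) {S Low : Finset ℕ}
    (hS : ∀ p ∈ S, p.Prime ∧ 3 * z < p ∧ p ≤ 4 * z)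
    (hτ : ∀ n : ℕ, 1 ≤ n → n ≤ 2 * N → n.primeFactors.card ≤ τ) (A : Finset ℕ)
    (hA : ∀ n ∈ A, 1 ≤ n ∧ n ≤ N ∧ Squarefree (n + h0))
    {n : ℕ} (hn : n ∈ A) (j : ℕ) :
    ((A.filter fun n' => symmDiff (n + h0).primeFactors (n' + h0).primeFactors ⊆ S ∪ Low ∧
      (vq S (fun n => (n + h0).primeFactors) n' n).card = j).card : ℝ) ≤
      (if (z : ℝ) ^ j ≤ 2 * N then (z : ℝ) ^ j / j.factorial else 0) * 2 ^ (Low.card + τ) := by
  classical
  set P : ℕ → Finset ℕ := fun n => (n + h0).primeFactors with hP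
  set G := A.filter fun n' => symmDiff (n + h0).primeFactors (n' + h0).primeFactors ⊆ S ∪ Low ∧
      (vq S P n' n).card = j with hG
  have hz0 : (0 : ℝ) ≤ z := Nat.cast_nonneg z
  -- the size of `z ^ j`
  have hzj : ∀ n' ∈ G, (z : ℝ) ^ j ≤ 2 * N := by
    intro n' hn'
    rw [hG, Finset.mem_filter] at hn'
    obtain ⟨hn'A, -, hj⟩ := hn'
    obtain ⟨h1, h2, h3⟩ := hA n' hn'A
    have h4 : (∏ p ∈ vq S P n' n, p) ∣ n' + h0 := by
      apply Finset.prod_primes_dvd
      · intro p hp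
        rw [vq, Finset.mem_inter] at hp
        exact (hS p hp.2).1.prime
      · intro p hp
        rw [vq, Finset.mem_inter, Finset.mem_sdiff] at hp
        exact (Nat.mem_primeFactors.mp hp.1.1).2.1
    have h5 := Nat.le_of_dvd (by omega) h4
    have h6 : ∏ _p ∈ vq S P n' n, z ≤ ∏ p ∈ vq S P n' n, p := by
      apply Finset.prod_le_prod'
      intro p hp
      rw [vq, Finset.mem_inter] at hp
      have := (hS p hp.2).2.1
      omega
    rw [Finset.prod_const, hj] at h6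
    have h7 : z ^ j ≤ 2 * N := by omega
    exact_mod_cast h7
  rcases G.eq_empty_or_nonempty with hGe | ⟨n1, hn1⟩
  · rw [hGe, Finset.card_empty, Nat.cast_zero]
    apply mul_nonneg _ (by positivity)
    split_ifs <;> positivity
  · rw [if_pos (hzj n1 hn1)]
    set W : Finset ℕ := P n ∪ Low with hW
    have hWcard : W.card ≤ Low.card + τ := by
      have h1 : W.card ≤ (P n).card + Low.card := Finset.card_union_le _ _
      obtain ⟨h2, h3, h4⟩ := hA n hn
      have h5 : (P n).card ≤ τ := hτ (n + h0) (by omega) (by omega)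
      omega
    have hsub : G ⊆ ((S.powersetCard j) ×ˢ W.powerset).image
        fun x => (∏ p ∈ x.1, p) * (∏ p ∈ x.2, p) - h0 := by
      intro n' hn'
      rw [hG, Finset.mem_filter] at hn'
      obtain ⟨hn'A, hsd, hv⟩ := hn'
      obtain ⟨h1, h2, h3⟩ := hA n' hn'A
      rw [Finset.mem_image]
      refine ⟨(vq S P n' n, P n' \ vq S P n' n), ?_, ?_⟩
      · rw [Finset.mem_product, Finset.mem_powersetCard, Finset.mem_powerset]
        refine ⟨⟨Finset.inter_subset_right, hv⟩, ?_⟩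
        intro p hp
        rw [Finset.mem_sdiff] at hp
        obtain ⟨hpp, hpn⟩ := hp
        rw [hW, Finset.mem_union]
        by_cases hK : p ∈ P n
        · exact Or.inl hK
        · right
          have h4 : p ∈ S ∪ Low := by
            apply hsd
            rw [Finset.mem_symmDiff]
            exact Or.inr ⟨hpp, hK⟩
          rcases Finset.mem_union.mp h4 with h5 | h5
          · exfalso
            apply hpn
            rw [vq, Finset.mem_inter, Finset.mem_sdiff]
            exact ⟨⟨hpp, hK⟩, h5⟩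
          · exact h5
      · have hsubP : vq S P n' n ⊆ P n' := by
          intro p hp
          rw [vq, Finset.mem_inter, Finset.mem_sdiff] at hp
          exact hp.1.1
        simp only
        rw [mul_comm, Finset.prod_sdiff hsubP]
        simp only [hP]
        rw [Nat.prod_primeFactors_of_squarefree h3]
        omega
    have hcard : G.card ≤ (S.powersetCard j).card * 2 ^ W.card := by
      refine (Finset.card_le_card hsub).trans (Finset.card_image_le.trans ?_)
      rw [Finset.card_product, Finset.card_powerset]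
    calc (G.card : ℝ) ≤ (((S.powersetCard j).card * 2 ^ W.card : ℕ) : ℝ) := by
          exact_mod_cast hcard
      _ = ((S.powersetCard j).card : ℝ) * 2 ^ W.card := by
          push_cast
          ring
      _ ≤ ((z : ℝ) ^ j / j.factorial) * 2 ^ (Low.card + τ) := by
          have h1 := choose99 (j := j) hS
          have h2 : (2 : ℝ) ^ W.card ≤ 2 ^ (Low.card + τ) :=
            pow_le_pow_right₀ (by norm_num) hWcard
          gcongr

/-- The second moment for one shift. -/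
theorem SM1 (γ : ℝ) (hγ0 : 0 ≤ γ) (hγ1 : γ ≤ 1 / 2) (N z : ℕ) (hN : 1 ≤ N) (hz : 1 ≤ z) (h : Fin 1 → ℕ)
    (hle : ∀ i, h i ≤ N) (S Low : Finset ℕ)
    (hS : ∀ p ∈ S, p.Prime ∧ 3 * z < p ∧ p ≤ 4 * z) (ρ : ℕ → ℝ) (b : ℝ)
    (hb : 0 ≤ b) (hρS : ∀ p ∈ S, 0 ≤ ρ p ∧ ρ p ≤ 1 ∧ ρ p ≤ b / (z : ℝ) ^ ((1 / 2 + γ) / 2))
    (hρL : ∀ p ∈ Low, 0 ≤ ρ p ∧ ρ p ≤ 1) (hρ0 : ∀ p, p ∉ S → p ∉ Low → ρ p = 0) (τ : ℕ)
    (hτ : ∀ n : ℕ, 1 ≤ n → n ≤ 2 * N → n.primeFactors.card ≤ τ) :
    ∑ n ∈ sqf h N, ∑ n' ∈ sqf h N, ∏ p ∈ symmDiff (kap h N n) (kap h N n'), ρ p ≤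
      6 * N * 2 ^ (Low.card + τ) * (2 * N : ℝ) ^ (1 / 2 - γ) * Real.exp (2 * b) := by
  classical
  have hz1 : (1 : ℝ) ≤ z := by exact_mod_cast hz
  have hz0 : (0 : ℝ) < z := by linarith
  have hN1 : (1 : ℝ) ≤ N := by exact_mod_cast hN
  have hzr : 0 < (z : ℝ) ^ ((1 / 2 + γ) / 2) := Real.rpow_pos_of_pos hz0 _
  set c : ℝ := b / (z : ℝ) ^ ((1 / 2 + γ) / 2) with hc
  have hc0 : 0 ≤ c := div_nonneg hb hzr.le
  set E : ℕ := Low.card + τ with hE
  set K : ℝ := (2 * N : ℝ) ^ (1 / 2 - γ) with hK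
  have hK0 : 0 ≤ K := by positivity
  set h0 := h 0 with hh0
  have hhN : h0 ≤ N := hle 0
  set A := sqf h N with hA
  have hmem : ∀ n ∈ A, 1 ≤ n ∧ n ≤ N ∧ Squarefree (n + h0) := by
    intro n hn
    rw [hA, sqf, Finset.mem_filter, Finset.mem_Icc] at hn
    exact ⟨hn.1.1, hn.1.2, hn.2 0⟩
  set P : ℕ → Finset ℕ := fun n => (n + h0).primeFactors with hP
  have hkap : ∀ n ∈ A, kap h N n = P n := fun n hn => kap1_99 hhN (hmem n hn).1 (hmem n hn).2.1
  set v : ℕ → ℕ → ℕ := fun n n' => (vq S P n n').card with hv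
  set NN : ℕ → Finset ℕ := fun i => (Icc 1 N).filter fun n =>
    ∃ V ∈ S.powersetCard i, (∏ p ∈ V, p) ∣ n + h0 with hNN
  set Gd : ℕ → ℕ → Finset ℕ := fun n j => A.filter fun n' =>
    symmDiff (n + h0).primeFactors (n' + h0).primeFactors ⊆ S ∪ Low ∧ (vq S P n' n).card = j with hGd
  set Y : ℕ → ℕ → ℝ := fun n n' =>
    if symmDiff (P n) (P n') ⊆ S ∪ Low ∧ v n' n ≤ v n n' then
      c ^ (v n n' + v n' n) else 0 with hY
  have hY0 : ∀ n n', 0 ≤ Y n n' := by
    intro n n'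
    simp only [hY]
    split_ifs
    · positivity
    · exact le_rfl
  have hT : ∀ n ∈ A, ∀ n' ∈ A,
      ∏ p ∈ symmDiff (kap h N n) (kap h N n'), ρ p ≤ Y n n' + Y n' n := by
    intro n hn n' hn'
    rw [hkap n hn, hkap n' hn']
    by_cases hsub : symmDiff (P n) (P n') ⊆ S ∪ Low
    · have h1 := term99 S Low P ρ c hc0 hρS hρL n n' hsub
      have hsub' : symmDiff (P n') (P n) ⊆ S ∪ Low := by
        rw [symmDiff_comm]
        exact hsub
      rcases le_total (v n' n) (v n n') with hle' | hle'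
      · have h2 : Y n n' = c ^ (v n n' + v n' n) := by
          simp only [hY]
          rw [if_pos ⟨hsub, hle'⟩]
        rw [h2]
        have := hY0 n' n
        linarith
      · have h2 : Y n' n = c ^ (v n n' + v n' n) := by
          simp only [hY]
          rw [if_pos ⟨hsub', hle'⟩, add_comm]
        rw [h2]
        have := hY0 n n'
        linarith
    · obtain ⟨p, hp, hpn⟩ := Finset.not_subset.mp hsub
      rw [Finset.mem_union, not_or] at hpn
      rw [Finset.prod_eq_zero hp (hρ0 p hpn.1 hpn.2)]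
      have := hY0 n n'
      have := hY0 n' n
      linarith
  have hvM : ∀ n n', v n n' ≤ S.card := by
    intro n n'
    exact Finset.card_le_card Finset.inter_subset_right
  have hYle : ∀ n ∈ A, ∀ n' ∈ A, Y n n' ≤
      ∑ i ∈ range (S.card + 1), ∑ j ∈ range (i + 1),
        (if n ∈ NN i then (1 : ℝ) else 0) * (if n' ∈ Gd n j then 1 else 0) * c ^ (i + j) := by
    intro n hn n' hn'
    have hnn : ∀ i j : ℕ, 0 ≤
        (if n ∈ NN i then (1 : ℝ) else 0) * (if n' ∈ Gd n j then 1 else 0) * c ^ (i + j) := by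
      intro i j
      split_ifs <;> positivity
    by_cases hcond : symmDiff (P n) (P n') ⊆ S ∪ Low ∧ v n' n ≤ v n n'
    · have h1 : Y n n' = (if n ∈ NN (v n n') then (1 : ℝ) else 0) *
          (if n' ∈ Gd n (v n' n) then 1 else 0) * c ^ (v n n' + v n' n) := by
        have hN1 : n ∈ NN (v n n') := by
          simp only [hNN]
          rw [Finset.mem_filter, Finset.mem_Icc]
          refine ⟨⟨(hmem n hn).1, (hmem n hn).2.1⟩, vq S P n n', ?_, ?_⟩
          · exact Finset.mem_powersetCard.mpr ⟨Finset.inter_subset_right, rfl⟩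
          · apply Finset.prod_primes_dvd
            · intro p hp
              rw [vq, Finset.mem_inter] at hp
              exact (hS p hp.2).1.prime
            · intro p hp
              rw [vq, Finset.mem_inter, Finset.mem_sdiff] at hp
              exact (Nat.mem_primeFactors.mp hp.1.1).2.1
        have hG1 : n' ∈ Gd n (v n' n) := by
          simp only [hGd]
          rw [Finset.mem_filter]
          exact ⟨hn', hcond.1, rfl⟩
        rw [if_pos hN1, if_pos hG1, one_mul, one_mul]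
        simp only [hY]
        rw [if_pos hcond]
      rw [h1]
      refine le_trans ?_ (Finset.single_le_sum
        (f := fun i => ∑ j ∈ range (i + 1),
        (if n ∈ NN i then (1 : ℝ) else 0) * (if n' ∈ Gd n j then 1 else 0) * c ^ (i + j))
        (fun i _ => Finset.sum_nonneg (fun j _ => hnn i j))
        (Finset.mem_range.mpr (Nat.lt_succ_of_le (hvM n n'))))
      exact Finset.single_le_sum (f := fun j =>
        (if n ∈ NN (v n n') then (1 : ℝ) else 0) * (if n' ∈ Gd n j then 1 else 0) *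
          c ^ (v n n' + j))
        (fun j _ => hnn _ j) (Finset.mem_range.mpr (Nat.lt_succ_of_le hcond.2))
    · have h1 : Y n n' = 0 := by
        simp only [hY]
        rw [if_neg hcond]
      rw [h1]
      exact Finset.sum_nonneg (fun i _ => Finset.sum_nonneg (fun j _ => hnn i j))
  have hij : ∀ i j : ℕ, j ≤ i → ∑ n ∈ A, ∑ n' ∈ A,
      (if n ∈ NN i then (1 : ℝ) else 0) * (if n' ∈ Gd n j then 1 else 0) * c ^ (i + j) ≤
      3 * N * 2 ^ E * K * ((b ^ i / i.factorial) * (b ^ j / j.factorial)) := by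
    intro i j hji
    set G : ℝ := if (z : ℝ) ^ j ≤ 2 * N then (z : ℝ) ^ j / j.factorial else 0 with hGv
    have hG0 : 0 ≤ G := by
      rw [hGv]
      split_ifs <;> positivity
    have h1 : ∀ n ∈ A, ∑ n' ∈ A,
        (if n ∈ NN i then (1 : ℝ) else 0) * (if n' ∈ Gd n j then 1 else 0) * c ^ (i + j) ≤
        (if n ∈ NN i then (1 : ℝ) else 0) * (G * 2 ^ E * c ^ (i + j)) := by
      intro n hn
      have h2 : ∑ n' ∈ A,
          (if n ∈ NN i then (1 : ℝ) else 0) * (if n' ∈ Gd n j then 1 else 0) * c ^ (i + j) =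
          (if n ∈ NN i then (1 : ℝ) else 0) * ((Gd n j).card * c ^ (i + j)) := by
        have h3 : ∑ n' ∈ A, (if n' ∈ Gd n j then (1 : ℝ) else 0) = (Gd n j).card := by
          rw [Finset.sum_ite_mem, Finset.sum_const, nsmul_eq_mul, mul_one]
          congr 2
          exact Finset.inter_eq_right.mpr (Finset.filter_subset _ _)
        rw [← Finset.sum_mul, ← Finset.mul_sum, h3]
        ring
      rw [h2]
      apply mul_le_mul_of_nonneg_left _ (by split_ifs <;> norm_num)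
      apply mul_le_mul_of_nonneg_right _ (by positivity)
      exact countG99 hhN hS hτ A hmem hn j
    refine (Finset.sum_le_sum h1).trans ?_
    rw [← Finset.sum_mul]
    have h4 : ∑ n ∈ A, (if n ∈ NN i then (1 : ℝ) else 0) ≤ 3 * N / i.factorial := by
      rw [Finset.sum_ite_mem, Finset.sum_const, nsmul_eq_mul, mul_one]
      refine le_trans ?_ (countN99 (v := i) hz hhN hS)
      exact_mod_cast Finset.card_le_card Finset.inter_subset_right
    have hB0 : 0 ≤ G * 2 ^ E * c ^ (i + j) := by positivity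
    refine (mul_le_mul_of_nonneg_right h4 hB0).trans ?_
    have h5 : G * c ^ (i + j) ≤ K * (b ^ i * b ^ j) / j.factorial := by
      rw [hGv]
      split_ifs with hzj
      · rw [hc, div_pow, div_mul_eq_mul_div]
        apply div_le_div_of_nonneg_right _ (by positivity)
        rw [← pow_add, mul_div_assoc', div_le_iff₀ (by positivity)]
        have h6 : (z : ℝ) ^ j ≤ K * ((z : ℝ) ^ ((1 / 2 + γ) / 2)) ^ (i + j) := by
          have h7 : ((z : ℝ) ^ ((1 / 2 + γ) / 2)) ^ (i + j) = (z : ℝ) ^ ((1 / 2 + γ) / 2 * (i + j : ℕ)) := by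
            rw [Real.rpow_mul hz0.le, Real.rpow_natCast]
          have h8 : ((z : ℝ) ^ j) ^ (1 / 2 - γ) ≤ K := by
            rw [hK]
            exact Real.rpow_le_rpow (by positivity) hzj (by linarith)
          have h9 : (z : ℝ) ^ j = ((z : ℝ) ^ j) ^ (1 / 2 - γ) * (z : ℝ) ^ ((1 / 2 + γ) * j) := by
            rw [← Real.rpow_natCast (z : ℝ) j, ← Real.rpow_mul hz0.le, ← Real.rpow_add hz0]
            congr 1
            ring
          rw [h7, h9]
          refine mul_le_mul h8 ?_ (by positivity) hK0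
          apply Real.rpow_le_rpow_of_exponent_le hz1
          push_cast
          have h10 : (j : ℝ) ≤ i := by exact_mod_cast hji
          nlinarith
        calc (z : ℝ) ^ j * b ^ (i + j) ≤ (K * ((z : ℝ) ^ ((1 / 2 + γ) / 2)) ^ (i + j)) * b ^ (i + j) :=
              mul_le_mul_of_nonneg_right h6 (by positivity)
          _ = _ := by ring
      · rw [zero_mul]
        positivity
    have h7 : 3 * (N : ℝ) / i.factorial * (G * 2 ^ E * c ^ (i + j)) =
        3 * N * 2 ^ E / i.factorial * (G * c ^ (i + j)) := by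
      field_simp
    have h8 : 3 * N * 2 ^ E * K * ((b ^ i / i.factorial) * (b ^ j / j.factorial)) =
        3 * (N : ℝ) * 2 ^ E / i.factorial * (K * (b ^ i * b ^ j) / j.factorial) := by
      field_simp
    rw [h7, h8]
    exact mul_le_mul_of_nonneg_left h5 (by positivity)
  have hYsum : ∑ n ∈ A, ∑ n' ∈ A, Y n n' ≤ 3 * N * 2 ^ E * K * Real.exp (2 * b) := by
    calc ∑ n ∈ A, ∑ n' ∈ A, Y n n'
        ≤ ∑ n ∈ A, ∑ n' ∈ A, ∑ i ∈ range (S.card + 1), ∑ j ∈ range (i + 1),
          (if n ∈ NN i then (1 : ℝ) else 0) * (if n' ∈ Gd n j then 1 else 0) * c ^ (i + j) :=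
          Finset.sum_le_sum (fun n hn => Finset.sum_le_sum (fun n' hn' => hYle n hn n' hn'))
      _ = ∑ i ∈ range (S.card + 1), ∑ j ∈ range (i + 1), ∑ n ∈ A, ∑ n' ∈ A,
          (if n ∈ NN i then (1 : ℝ) else 0) * (if n' ∈ Gd n j then 1 else 0) * c ^ (i + j) := by
          have h1 : ∀ n ∈ A, ∑ n' ∈ A, ∑ i ∈ range (S.card + 1), ∑ j ∈ range (i + 1),
              (if n ∈ NN i then (1 : ℝ) else 0) * (if n' ∈ Gd n j then 1 else 0) * c ^ (i + j) =
              ∑ i ∈ range (S.card + 1), ∑ j ∈ range (i + 1), ∑ n' ∈ A,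
              (if n ∈ NN i then (1 : ℝ) else 0) * (if n' ∈ Gd n j then 1 else 0) *
                c ^ (i + j) := by
            intro n _
            rw [Finset.sum_comm]
            apply Finset.sum_congr rfl
            intro i _
            rw [Finset.sum_comm]
          rw [Finset.sum_congr rfl h1, Finset.sum_comm]
          apply Finset.sum_congr rfl
          intro i _
          rw [Finset.sum_comm]
      _ ≤ ∑ i ∈ range (S.card + 1), ∑ j ∈ range (i + 1),
          3 * N * 2 ^ E * K * ((b ^ i / i.factorial) * (b ^ j / j.factorial)) := by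
          apply Finset.sum_le_sum
          intro i _
          apply Finset.sum_le_sum
          intro j hj
          exact hij i j (Nat.lt_succ_iff.mp (Finset.mem_range.mp hj))
      _ ≤ ∑ i ∈ range (S.card + 1), 3 * N * 2 ^ E * K * ((b ^ i / i.factorial) * Real.exp b) := by
          apply Finset.sum_le_sum
          intro i _
          rw [← Finset.mul_sum, ← Finset.mul_sum]
          apply mul_le_mul_of_nonneg_left _ (by positivity)
          apply mul_le_mul_of_nonneg_left _ (by positivity)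
          exact Real.sum_le_exp_of_nonneg hb _
      _ = 3 * N * 2 ^ E * K * ((∑ i ∈ range (S.card + 1), b ^ i / i.factorial) * Real.exp b) := by
          rw [← Finset.mul_sum, Finset.sum_mul]
      _ ≤ 3 * N * 2 ^ E * K * (Real.exp b * Real.exp b) := by
          apply mul_le_mul_of_nonneg_left _ (by positivity)
          apply mul_le_mul_of_nonneg_right _ (Real.exp_pos b).le
          exact Real.sum_le_exp_of_nonneg hb _
      _ = 3 * N * 2 ^ E * K * Real.exp (2 * b) := by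
          rw [← Real.exp_add, two_mul]
  calc ∑ n ∈ A, ∑ n' ∈ A, ∏ p ∈ symmDiff (kap h N n) (kap h N n'), ρ p
      ≤ ∑ n ∈ A, ∑ n' ∈ A, (Y n n' + Y n' n) :=
        Finset.sum_le_sum (fun n hn => Finset.sum_le_sum (fun n' hn' => hT n hn n' hn'))
    _ = ∑ n ∈ A, ∑ n' ∈ A, Y n n' + ∑ n ∈ A, ∑ n' ∈ A, Y n' n := by
        simp only [Finset.sum_add_distrib]
    _ = ∑ n ∈ A, ∑ n' ∈ A, Y n n' + ∑ n ∈ A, ∑ n' ∈ A, Y n n' := by
        congr 1
        rw [Finset.sum_comm]
    _ ≤ 6 * N * 2 ^ E * K * Real.exp (2 * b) := by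
        have := hYsum
        linarith

/-- The moment bound for one `N` and one shift. -/
theorem MBN1 (γ : ℝ) (hγ0 : 0 ≤ γ) (hγ1 : γ ≤ 1 / 2) (r N z : ℕ) (hN : 1 ≤ N) (hz : 1 ≤ z) (h : Fin 1 → ℕ)
    (hle : ∀ i, h i ≤ N) (a : ℕ → ℝ) (ha : ∀ n, |a n| ≤ 1)
    (S Low : Finset ℕ) (hS : ∀ p ∈ S, p.Prime ∧ 3 * z < p ∧ p ≤ 4 * z)
    (τ : ℕ) (hτ : ∀ n : ℕ, 1 ≤ n → n ≤ 2 * N → n.primeFactors.card ≤ τ) (t : ℕ)
    (ht : ∀ n ∈ sqf h N, (kap h N n ∩ S).card * 2 ^ (r + 1) ≤ t)
    (Lf : ((ℕ → ℤˣ) → ℝ) →ₗ[ℝ] ℝ)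
    (hL0 : ∀ W : Finset ℕ, (∀ p ∈ W, p.Prime ∧ p ≤ 2 * N) → ¬ W ⊆ S ∪ Low → Lf (ch W) = 0)
    (hL1 : ∀ W : Finset ℕ, (∀ p ∈ W, p.Prime ∧ p ≤ 2 * N) →
      |Lf (ch W)| ≤ (Real.sqrt (min 1 ((W ∩ S).card / (z : ℝ) ^ (1 / 2 + γ)))) ^ (W ∩ S).card) :
    Lf (fun f => (∑ n ∈ sqf h N, a n * ch (kap h N n) f) ^ (2 ^ (r + 1))) ≤
      18 ^ (τ * r * 2 ^ r) *
        (6 * N * 2 ^ (Low.card + τ) * (2 * N : ℝ) ^ (1 / 2 - γ) * Real.exp (8 * t)) ^ (2 ^ r) := by
  classical
  have hz1 : (1 : ℝ) ≤ z := by exact_mod_cast hz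
  have hzp : (0 : ℝ) < z := by linarith
  have hz0 : (0 : ℝ) < (z : ℝ) ^ (1 / 2 + γ) := Real.rpow_pos_of_pos hzp _
  have hzh : (0 : ℝ) < (z : ℝ) ^ ((1 / 2 + γ) / 2) := Real.rpow_pos_of_pos hzp _
  have hzsq : Real.sqrt ((z : ℝ) ^ (1 / 2 + γ)) = (z : ℝ) ^ ((1 / 2 + γ) / 2) := by
    rw [Real.sqrt_eq_rpow, ← Real.rpow_mul hzp.le]
    congr 1
    ring
  have ht0 : (0 : ℝ) ≤ t := Nat.cast_nonneg t
  set ρ₁ : ℝ := Real.sqrt (min 1 (t / (z : ℝ) ^ (1 / 2 + γ))) with hρ₁
  have hm0 : 0 ≤ min 1 ((t : ℝ) / (z : ℝ) ^ (1 / 2 + γ)) := le_min zero_le_one (by positivity)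
  have hρ₁0 : 0 ≤ ρ₁ := Real.sqrt_nonneg _
  have hρ₁1 : ρ₁ ≤ 1 := by
    rw [hρ₁]
    exact Real.sqrt_le_one.2 (min_le_left _ _)
  have hρ₁s : ρ₁ ≤ Real.sqrt t / (z : ℝ) ^ ((1 / 2 + γ) / 2) := by
    rw [hρ₁, ← hzsq, ← Real.sqrt_div ht0]
    exact Real.sqrt_le_sqrt (min_le_right _ _)
  set ρS : ℝ := if ρ₁ ≤ 1 / 2 then ρ₁ else 1 with hρS
  have hρS0 : 0 ≤ ρS := by rw [hρS]; split_ifs <;> linarith
  have hρS1 : ρS ≤ 1 := by rw [hρS]; split_ifs <;> linarith
  have hρ₁S : ρ₁ ≤ ρS := by rw [hρS]; split_ifs <;> linarith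
  have hρSq : ρS ≤ (2 * Real.sqrt t) / (z : ℝ) ^ ((1 / 2 + γ) / 2) := by
    have h1 : 2 * Real.sqrt t / (z : ℝ) ^ ((1 / 2 + γ) / 2) =
        2 * (Real.sqrt t / (z : ℝ) ^ ((1 / 2 + γ) / 2)) := by ring
    rw [h1, hρS]
    split_ifs with hc
    · linarith
    · linarith [not_le.1 hc]
  set ρ : ℕ → ℝ := fun p => if p ∈ S then ρS else if p ∈ Low then 1 else 0 with hρdef
  have hρn : ∀ p, 0 ≤ ρ p := by
    intro p
    simp only [hρdef]
    split_ifs <;> linarith
  have hρ : ∀ p, (0 ≤ ρ p ∧ ρ p ≤ 1 / 2) ∨ ρ p = 1 := by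
    intro p
    simp only [hρdef]
    split_ifs with h1 h2
    · rw [hρS]
      split_ifs with hc
      · exact Or.inl ⟨hρ₁0, hc⟩
      · exact Or.inr rfl
    · exact Or.inr rfl
    · exact Or.inl ⟨le_rfl, by norm_num⟩
  set U : Finset ℕ := (Icc 1 (2 * N)).filter Nat.Prime with hU
  have hUm : ∀ W : Finset ℕ, W ⊆ U → ∀ p ∈ W, p.Prime ∧ p ≤ 2 * N := by
    intro W hW p hp
    have h1 := mem_filter.1 (hW hp)
    exact ⟨h1.2, (mem_Icc.1 h1.1).2⟩
  have hprod : ∀ W : Finset ℕ, W ⊆ S ∪ Low → ∏ p ∈ W, ρ p = ρS ^ (W ∩ S).card := by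
    intro W hW
    have h1 : ∀ p ∈ W, ρ p = if p ∈ S then ρS else 1 := by
      intro p hp
      simp only [hρdef]
      by_cases hpS : p ∈ S
      · simp [hpS]
      · have hpL : p ∈ Low := by
          rcases mem_union.1 (hW hp) with h2 | h2
          · exact absurd h2 hpS
          · exact h2
        simp [hpS, hpL]
    rw [prod_congr rfl h1, prod_ite, prod_const, prod_const_one, mul_one, filter_mem_eq_inter]
  have hkapd : ∀ n ∈ sqf h N, (kap h N n).card ≤ τ := by
    intro n hn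
    have hn' := mem_Icc.1 (mem_filter.1 hn).1
    rw [kap1_99 (hle 0) hn'.1 hn'.2]
    have := hle 0
    exact hτ (n + h 0) (by omega) (by omega)
  have hkapU : ∀ n ∈ sqf h N, kap h N n ⊆ U := by
    intro n _ p hp
    obtain ⟨h1, h2, _⟩ := mem_filter.1 hp
    exact mem_filter.2 ⟨h1, h2⟩
  have hL : ∀ W : Finset ℕ, W ⊆ U → (W ∩ S).card ≤ t → |Lf (ch W)| ≤ ∏ p ∈ W, ρ p := by
    intro W hW hWt
    by_cases hWS : W ⊆ S ∪ Low
    · rw [hprod W hWS]
      refine (hL1 W (hUm W hW)).trans ?_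
      apply pow_le_pow_left₀ (Real.sqrt_nonneg _)
      refine le_trans ?_ hρ₁S
      rw [hρ₁]
      apply Real.sqrt_le_sqrt
      apply min_le_min le_rfl
      apply div_le_div_of_nonneg_right _ hz0.le
      exact_mod_cast hWt
    · rw [hL0 W (hUm W hW) hWS, abs_zero]
      exact prod_nonneg fun p _ => hρn p
  have h1 := MOM Lf ρ hρ (sqf h N) a (fun n _ => ha n) (kap h N) τ r hkapd U S t hkapU ht hL
  have h2 := SM1 γ hγ0 hγ1 N z hN hz h hle S Low hS ρ (2 * Real.sqrt t) (by positivity)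
    (fun p hp => by
      have : ρ p = ρS := by simp [hρdef, hp]
      rw [this]
      exact ⟨hρS0, hρS1, hρSq⟩)
    (fun p hp => by
      refine ⟨hρn p, ?_⟩
      simp only [hρdef]
      split_ifs <;> linarith)
    (fun p hp hp' => by simp [hρdef, hp, hp']) τ hτ
  have hst : Real.sqrt t ≤ t := by
    rcases Nat.eq_zero_or_pos t with h0 | h0
    · rw [h0]; simp
    · rw [Real.sqrt_le_left ht0]
      have : (1 : ℝ) ≤ t := by exact_mod_cast h0
      nlinarith
  have h3 : Real.exp (2 * (2 * Real.sqrt t)) ≤ Real.exp (8 * t) := by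
    rw [Real.exp_le_exp]
    linarith
  have h4 := h2.trans (mul_le_mul_of_nonneg_left h3 (by positivity))
  refine h1.trans ?_
  apply mul_le_mul_of_nonneg_left _ (by positivity)
  apply pow_le_pow_left₀ _ h4
  exact sum_nonneg fun i _ => sum_nonneg fun j _ => prod_nonneg fun p _ => hρn p

end Pool.Agent.Helper99.MB
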