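import Mathlib
import Pool.Agent.Helper92.CB.Defs
import Pool.Agent.Helper92.CB.DIV
import Pool.Agent.Helper92.CB.OPS
import Pool.Agent.Helper99.MB.SM1

/-!
# The moment bound for one sum with the special blocks of small coupling, asymptotic form (MP_b6b996_nt)
As `Helper92/CB/MBA.lean`, for one shift (`k = 1`), with the finer moment bound `√(min 1 (#/z^(1/2+γ)))` for each special prime.
-/

set_option autoImplicit false

namespace Pool.Agent.Helper99.MB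

open Finset
open Pool.Agent.Helper92.GB (e ext F npi wt)
open Pool.Agent.Helper92.CB

private theorem MB1_succ (z : ℕ → ℕ) (hz : ∀ j, 2 ^ (z j ^ 2) < z (j + 1)) (hz1 : ∀ j, 16 ≤ z j) (j : ℕ) :
    2 * z j < z (j + 1) := by
  refine lt_trans ?_ (hz j)
  have h1 : z j + 1 ≤ z j ^ 2 := by nlinarith [hz1 j]
  calc 2 * z j < 2 * 2 ^ (z j) := by
        have := Nat.lt_two_pow_self (n := z j)
        omega
    _ = 2 ^ (z j + 1) := by rw [pow_succ]; ring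
    _ ≤ 2 ^ (z j ^ 2) := Nat.pow_le_pow_right (by norm_num) h1

private theorem MB1_mono (z : ℕ → ℕ) (hz : ∀ j, 2 ^ (z j ^ 2) < z (j + 1)) (hz1 : ∀ j, 16 ≤ z j) :
    StrictMono z := strictMono_nat_of_lt_succ fun j => by
  have := MB1_succ z hz hz1 j
  omega

private theorem MB1_gap (z : ℕ → ℕ) (hz : ∀ j, 2 ^ (z j ^ 2) < z (j + 1)) (hz1 : ∀ j, 16 ≤ z j) {i j : ℕ}
    (h : i < j) : 4 * z i < 3 * z j := by
  have h1 := MB1_succ z hz hz1 i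
  have h2 : z (i + 1) ≤ z j := (MB1_mono z hz hz1).monotone h
  have h3 := hz1 i
  omega

private theorem MB1_dis (z : ℕ → ℕ) (hz : ∀ j, 2 ^ (z j ^ 2) < z (j + 1)) (hz1 : ∀ j, 16 ≤ z j)
    (c : ℕ ⊕ ℕ → Finset ℕ)
    (hc1 : ∀ (k p : ℕ), p ∈ c (Sum.inl k) ↔ (2 ^ k < p ∧ p ≤ 2 ^ (k + 1) ∧ p.Prime ∧
      ¬ ∃ j, 3 * z j < p ∧ p ≤ 4 * z j))
    (hc2 : ∀ (j p : ℕ), p ∈ c (Sum.inr j) ↔ (3 * z j < p ∧ p ≤ 4 * z j ∧ p.Prime)) :
    ∀ i j, i ≠ j → Disjoint (c i) (c j) := by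
  have hl : ∀ k k' p, k < k' → p ∈ c (Sum.inl k) → p ∈ c (Sum.inl k') → False := by
    intro k k' p hkk h1 h2
    rw [hc1] at h1 h2
    have h3 : 2 ^ (k + 1) ≤ 2 ^ k' := Nat.pow_le_pow_right (by norm_num) hkk
    have h4 := h1.2.1
    have h5 := h2.1
    omega
  have hr : ∀ k k' p, k < k' → p ∈ c (Sum.inr k) → p ∈ c (Sum.inr k') → False := by
    intro k k' p hkk h1 h2
    rw [hc2] at h1 h2
    have h3 := MB1_gap z hz hz1 hkk
    have h4 := h1.2.1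
    have h5 := h2.1
    omega
  intro i j hij
  rw [Finset.disjoint_left]
  intro p hp hp'
  rcases i with k | k <;> rcases j with k' | k'
  · rcases lt_trichotomy k k' with h | h | h
    · exact hl k k' p h hp hp'
    · exact hij (by rw [h])
    · exact hl k' k p h hp' hp
  · rw [hc1] at hp
    rw [hc2] at hp'
    exact hp.2.2.2 ⟨k', hp'.1, hp'.2.1⟩
  · rw [hc2] at hp
    rw [hc1] at hp'
    exact hp'.2.2.2 ⟨k, hp.1, hp.2.1⟩
  · rcases lt_trichotomy k k' with h | h | h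
    · exact hr k k' p h hp hp'
    · exact hij (by rw [h])
    · exact hr k' k p h hp' hp

private theorem MB1_cell (z : ℕ → ℕ) (c : ℕ ⊕ ℕ → Finset ℕ)
    (hc1 : ∀ (k p : ℕ), p ∈ c (Sum.inl k) ↔ (2 ^ k < p ∧ p ≤ 2 ^ (k + 1) ∧ p.Prime ∧
      ¬ ∃ j, 3 * z j < p ∧ p ≤ 4 * z j))
    (rel : ℕ → Finset (ℕ ⊕ ℕ)) (hrel1 : ∀ N k : ℕ, Sum.inl k ∈ rel N ↔ 2 ^ k < 2 * N)
    {N p : ℕ} (hp : p.Prime) (hpN : p ≤ 2 * N) (hs : ¬ ∃ j, 3 * z j < p ∧ p ≤ 4 * z j) :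
    ∃ k, Sum.inl k ∈ rel N ∧ p ∈ c (Sum.inl k) := by
  have h2 := hp.two_le
  have hne : p - 1 ≠ 0 := by omega
  have h3 : 2 ^ Nat.log 2 (p - 1) ≤ p - 1 := Nat.pow_log_le_self 2 hne
  have h4 : p - 1 < 2 ^ (Nat.log 2 (p - 1) + 1) := Nat.lt_pow_succ_log_self (by norm_num) _
  refine ⟨Nat.log 2 (p - 1), ?_, ?_⟩
  · rw [hrel1]
    omega
  · rw [hc1]
    exact ⟨by omega, by omega, hp, hs⟩

/-- the number of primes `> 3 z` in `kap` -/
private theorem MB1_kap {k : ℕ} (h : Fin k → ℕ) (N z : ℕ) (hz : 1 ≤ z) (hle : ∀ i, h i ≤ N)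
    (S : Finset ℕ) (hS : ∀ p ∈ S, p.Prime ∧ 3 * z < p) (n : ℕ) (hn : n ∈ sqf h N) :
    (kap h N n ∩ S).card ≤ k * Nat.log (3 * z) (2 * N) := by
  classical
  have hn' : 1 ≤ n ∧ n ≤ N := by
    unfold sqf at hn
    rw [Finset.mem_filter, Finset.mem_Icc] at hn
    exact hn.1
  have h1 : kap h N n ∩ S ⊆ (univ : Finset (Fin k)).biUnion (fun i => S.filter (fun p => p ∣ n + h i)) := by
    intro p hp
    rw [Finset.mem_inter] at hp
    obtain ⟨hp1, hp2⟩ := hp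
    unfold kap at hp1
    rw [Finset.mem_filter] at hp1
    have hpos := hp1.2.2.pos
    rw [Finset.card_pos] at hpos
    obtain ⟨i, hi⟩ := hpos
    rw [Finset.mem_filter] at hi
    rw [Finset.mem_biUnion]
    exact ⟨i, Finset.mem_univ _, Finset.mem_filter.mpr ⟨hp2, hi.2⟩⟩
  have h2 : ∀ i, (S.filter (fun p => p ∣ n + h i)).card ≤ Nat.log (3 * z) (2 * N) := by
    intro i
    have hd : ∏ p ∈ S.filter (fun p => p ∣ n + h i), p ∣ n + h i := by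
      refine Finset.prod_primes_dvd _ ?_ ?_
      · intro p hp
        exact ((hS p (Finset.mem_filter.mp hp).1).1).prime
      · intro p hp
        exact (Finset.mem_filter.mp hp).2
    have hle1 : ∏ p ∈ S.filter (fun p => p ∣ n + h i), p ≤ 2 * N := by
      refine (Nat.le_of_dvd (by omega) hd).trans ?_
      have := hle i
      omega
    have hle2 : (3 * z) ^ (S.filter (fun p => p ∣ n + h i)).card ≤
        ∏ p ∈ S.filter (fun p => p ∣ n + h i), p := by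
      refine Finset.pow_card_le_prod _ _ _ ?_
      intro p hp
      exact (hS p (Finset.mem_filter.mp hp).1).2.le
    exact Nat.le_log_of_pow_le (by omega) (hle2.trans hle1)
  calc (kap h N n ∩ S).card
      ≤ ((univ : Finset (Fin k)).biUnion (fun i => S.filter (fun p => p ∣ n + h i))).card :=
        Finset.card_le_card h1
    _ ≤ ∑ i, (S.filter (fun p => p ∣ n + h i)).card := Finset.card_biUnion_le
    _ ≤ ∑ _i : Fin k, Nat.log (3 * z) (2 * N) := Finset.sum_le_sum fun i _ => h2 i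
    _ = k * Nat.log (3 * z) (2 * N) := by simp

/-- the bound for one choice of `S`, `Low` -/
private theorem MB1_core (γ : ℝ) (hγ0 : 0 ≤ γ) (hγ1 : γ ≤ 1 / 2) (z : ℕ → ℕ) (hz : ∀ j, 2 ^ (z j ^ 2) < z (j + 1)) (hz1 : ∀ j, 16 ≤ z j)
    (c : ℕ ⊕ ℕ → Finset ℕ)
    (hc1 : ∀ (k p : ℕ), p ∈ c (Sum.inl k) ↔ (2 ^ k < p ∧ p ≤ 2 ^ (k + 1) ∧ p.Prime ∧
      ¬ ∃ j, 3 * z j < p ∧ p ≤ 4 * z j))
    (hc2 : ∀ (j p : ℕ), p ∈ c (Sum.inr j) ↔ (3 * z j < p ∧ p ≤ 4 * z j ∧ p.Prime))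
    (w0 : ∀ i, ({p // p ∈ c i} → ℤˣ) → ℝ)
    (h0 : ∀ (k : ℕ) (S : Finset ℕ), mom (c (Sum.inl k)) (w0 (Sum.inl k)) S =
      if S ∩ c (Sum.inl k) = ∅ then 1 else 0)
    (h1 : ∀ (j : ℕ) (S : Finset ℕ), |mom (c (Sum.inr j)) (w0 (Sum.inr j)) S| ≤
      (Real.sqrt (min 1 ((S ∩ c (Sum.inr j)).card / (z j : ℝ) ^ (1 / 2 + γ)))) ^
        (S ∩ c (Sum.inr j)).card)
    (rel : ℕ → Finset (ℕ ⊕ ℕ)) (hrel1 : ∀ N k : ℕ, Sum.inl k ∈ rel N ↔ 2 ^ k < 2 * N)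
    (hrel2 : ∀ N j : ℕ, Sum.inr j ∈ rel N ↔ 3 * z j < 2 * N)
    (r : ℕ) (N : ℕ) (hN : 1 ≤ N) (h : Fin 1 → ℕ)
    (hle : ∀ i, h i ≤ N) (a : ℕ → ℝ) (ha : ∀ n, |a n| ≤ 1)
    (l : List (ℕ ⊕ ℕ)) (hl : l.Nodup) (hli : ∀ i, i ∈ l ↔ i ∈ rel N)
    (S : Finset ℕ) (L z' t τ : ℕ) (hz' : 1 ≤ z')
    (hS : (S = ∅ ∧ t = 0) ∨
      ∃ j, S = c (Sum.inr j) ∧ z' = z j ∧ 3 * z j < 2 * N ∧ t = 1 * Nat.log (3 * z j) (2 * N) * 2 ^ (r + 1))
    (hLow : ∀ i, 3 * z i < 2 * N → (S = c (Sum.inr i)) ∨ 4 * z i ≤ L)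
    (hτ : ∀ n : ℕ, 1 ≤ n → n ≤ 2 * N → n.primeFactors.card ≤ τ) :
    EL c w0 l (fun f => (∑ n ∈ sqf h N, a n * ch (kap h N n) f) ^ (2 ^ (r + 1))) (fun _ => 1) ≤
      18 ^ (τ * r * 2 ^ r) *
        (6 * N * 2 ^ (L + τ) * (2 * N : ℝ) ^ (1 / 2 - γ) * Real.exp (8 * t)) ^ (2 ^ r) := by
  classical
  obtain ⟨Lf, hLf⟩ := EL_lin c w0 l (fun _ => 1)
  -- value on characters
  have hval : ∀ W : Finset ℕ, (∀ p ∈ W, p.Prime ∧ p ≤ 2 * N) →
      Lf (ch W) = ∏ i ∈ l.toFinset, mom (c i) (w0 i) W := by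
    intro W hW
    rw [hLf, EL_ch c w0 (MB1_dis z hz hz1 c hc1 hc2) l hl W ?_, List.prod_toFinset _ hl]
    intro p hp
    obtain ⟨hp1, hp2⟩ := hW p hp
    by_cases hs : ∃ j, 3 * z j < p ∧ p ≤ 4 * z j
    · obtain ⟨j, hj1, hj2⟩ := hs
      refine ⟨Sum.inr j, ?_, ?_⟩
      · rw [hli, hrel2]
        omega
      · rw [hc2]
        exact ⟨hj1, hj2, hp1⟩
    · obtain ⟨k', hk1, hk2⟩ := MB1_cell z c hc1 rel hrel1 hp1 hp2 hs
      exact ⟨Sum.inl k', (hli _).mpr hk1, hk2⟩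
  have hm1 : ∀ i W, |mom (c i) (w0 i) W| ≤ 1 := by
    intro i W
    rcases i with k' | j
    · rw [h0]
      split_ifs <;> simp
    · refine (h1 j W).trans ?_
      refine pow_le_one₀ (Real.sqrt_nonneg _) ?_
      rw [Real.sqrt_le_one]
      exact min_le_left _ _
  have hL0 : ∀ W : Finset ℕ, (∀ p ∈ W, p.Prime ∧ p ≤ 2 * N) → ¬ W ⊆ S ∪ Finset.Icc 1 L → Lf (ch W) = 0 := by
    intro W hW hsub
    rw [hval W hW]
    rw [Finset.not_subset] at hsub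
    obtain ⟨p, hp, hpS⟩ := hsub
    obtain ⟨hp1, hp2⟩ := hW p hp
    rw [Finset.mem_union, not_or, Finset.mem_Icc] at hpS
    obtain ⟨hpS1, hpS2⟩ := hpS
    have hs : ¬ ∃ j, 3 * z j < p ∧ p ≤ 4 * z j := by
      rintro ⟨j, hj1, hj2⟩
      rcases hLow j (by omega) with h3 | h3
      · apply hpS1
        rw [h3, hc2]
        exact ⟨hj1, hj2, hp1⟩
      · exact hpS2 ⟨hp1.one_lt.le, hj2.trans h3⟩
    obtain ⟨k', hk1, hk2⟩ := MB1_cell z c hc1 rel hrel1 hp1 hp2 hs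
    refine Finset.prod_eq_zero (i := Sum.inl k') ?_ ?_
    · rw [List.mem_toFinset, hli]
      exact hk1
    · rw [h0, if_neg]
      intro h4
      have h5 : p ∈ W ∩ c (Sum.inl k') := Finset.mem_inter.mpr ⟨hp, hk2⟩
      rw [h4] at h5
      exact absurd h5 (Finset.notMem_empty _)
  have hL1 : ∀ W : Finset ℕ, (∀ p ∈ W, p.Prime ∧ p ≤ 2 * N) →
      |Lf (ch W)| ≤ (Real.sqrt (min 1 ((W ∩ S).card / (z' : ℝ) ^ (1 / 2 + γ)))) ^ (W ∩ S).card := by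
    intro W hW
    rw [hval W hW]
    rcases hS with ⟨hS0, -⟩ | ⟨j, hSj, hzj, hjN, -⟩
    · rw [hS0, Finset.inter_empty, Finset.card_empty, pow_zero, Finset.abs_prod]
      exact Finset.prod_le_one (fun i _ => abs_nonneg _) (fun i _ => hm1 i W)
    · have hmem : Sum.inr j ∈ l.toFinset := by
        rw [List.mem_toFinset, hli, hrel2]
        exact hjN
      rw [← Finset.mul_prod_erase _ _ hmem, abs_mul, hSj, hzj]
      refine (mul_le_of_le_one_right (abs_nonneg _) ?_).trans (h1 j W)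
      rw [Finset.abs_prod]
      exact Finset.prod_le_one (fun i _ => abs_nonneg _) (fun i _ => hm1 i W)
  have hSp : ∀ p ∈ S, p.Prime ∧ 3 * z' < p ∧ p ≤ 4 * z' := by
    intro p hp
    rcases hS with ⟨hS0, -⟩ | ⟨j, hSj, hzj, hjN, -⟩
    · rw [hS0] at hp
      exact absurd hp (Finset.notMem_empty _)
    · rw [hSj, hc2] at hp
      rw [hzj]
      exact ⟨hp.2.2, hp.1, hp.2.1⟩
  have ht : ∀ n ∈ sqf h N, (kap h N n ∩ S).card * 2 ^ (r + 1) ≤ t := by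
    intro n hn
    rcases hS with ⟨hS0, -⟩ | ⟨j, hSj, hzj, hjN, htj⟩
    · rw [hS0, Finset.inter_empty, Finset.card_empty, zero_mul]
      exact Nat.zero_le _
    · rw [htj]
      refine Nat.mul_le_mul_right _ ?_
      have h5 := MB1_kap h N z' hz' hle S (fun p hp => ⟨(hSp p hp).1, (hSp p hp).2.1⟩) n hn
      rwa [hzj] at h5
  have hmain := MBN1 γ hγ0 hγ1 r N z' hN hz' h hle a ha S (Finset.Icc 1 L) hSp τ hτ t ht Lf hL0 hL1
  rw [hLf] at hmain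
  have hcard : (Finset.Icc 1 L).card = L := by simp
  rw [hcard] at hmain
  exact hmain

/-- The moment bound for one sum: exponent `3/2 - γ` for the square. -/
theorem MB1 (γ : ℝ) (hγ0 : 0 ≤ γ) (hγ1 : γ ≤ 1 / 2) (z : ℕ → ℕ) (hz : ∀ j, 2 ^ (z j ^ 2) < z (j + 1)) (hz1 : ∀ j, 16 ≤ z j)
    (c : ℕ ⊕ ℕ → Finset ℕ)
    (hc1 : ∀ (k p : ℕ), p ∈ c (Sum.inl k) ↔ (2 ^ k < p ∧ p ≤ 2 ^ (k + 1) ∧ p.Prime ∧
      ¬ ∃ j, 3 * z j < p ∧ p ≤ 4 * z j))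
    (hc2 : ∀ (j p : ℕ), p ∈ c (Sum.inr j) ↔ (3 * z j < p ∧ p ≤ 4 * z j ∧ p.Prime))
    (w0 : ∀ i, ({p // p ∈ c i} → ℤˣ) → ℝ)
    (h0 : ∀ (k : ℕ) (S : Finset ℕ), mom (c (Sum.inl k)) (w0 (Sum.inl k)) S =
      if S ∩ c (Sum.inl k) = ∅ then 1 else 0)
    (h1 : ∀ (j : ℕ) (S : Finset ℕ), |mom (c (Sum.inr j)) (w0 (Sum.inr j)) S| ≤
      (Real.sqrt (min 1 ((S ∩ c (Sum.inr j)).card / (z j : ℝ) ^ (1 / 2 + γ)))) ^
        (S ∩ c (Sum.inr j)).card)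
    (rel : ℕ → Finset (ℕ ⊕ ℕ)) (hrel1 : ∀ N k : ℕ, Sum.inl k ∈ rel N ↔ 2 ^ k < 2 * N)
    (hrel2 : ∀ N j : ℕ, Sum.inr j ∈ rel N ↔ 3 * z j < 2 * N) :
    ∀ (r : ℕ) (ε : ℝ), 0 < ε → ∃ C : ℝ, ∀ N : ℕ, 1 ≤ N →
      ∀ h : Fin 1 → ℕ, (∀ i, h i ≤ N) → ∀ a : ℕ → ℝ, (∀ n, |a n| ≤ 1) →
      ∀ l : List (ℕ ⊕ ℕ), l.Nodup → (∀ i, i ∈ l ↔ i ∈ rel N) →
      EL c w0 l (fun f => (∑ n ∈ sqf h N, a n * ch (kap h N n) f) ^ (2 ^ (r + 1))) (fun _ => 1) ≤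
        C * (N : ℝ) ^ ((3 / 2 - γ + ε) * 2 ^ r) := by
  intro r ε hε
  set δ : ℝ := ε / 3 with hδ
  have hδ0 : 0 < δ := by positivity
  -- the threshold
  set Q : ℝ := 8 * 2 ^ (r + 1) / δ with hQ
  set B : ℕ := ⌈Real.exp Q⌉₊ with hB
  have hBlog : ∀ y : ℕ, B ≤ y → Q ≤ Real.log (3 * y : ℕ) := by
    intro y hy
    have h2 : Real.exp Q ≤ (y : ℝ) := (Nat.le_ceil _).trans (by exact_mod_cast hy)
    rw [Real.le_log_iff_exp_le]
    · push_cast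
      nlinarith [Real.exp_pos Q]
    · have := Real.exp_pos Q
      push_cast
      linarith
  -- the divisor bound
  set A : ℝ := 18 ^ r * 2 with hA
  have hA1 : 1 ≤ A := by
    rw [hA]
    exact one_le_mul_of_one_le_of_one_le (one_le_pow₀ (by norm_num)) (by norm_num)
  obtain ⟨C1, hC1, hdiv⟩ := DIV2 A δ hA1 hδ0
  set C2 : ℝ := 2 ^ (4 * B) + (2 : ℝ) ^ (4 / δ) with hC2
  have hC20 : 0 < C2 := by positivity
  refine ⟨(6 * C2 * C1 * 2 ^ δ * 2 ^ (1 / 2 - γ)) ^ (2 ^ r), ?_⟩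
  intro N hN h hle a ha l hl hli
  have hNr : (1 : ℝ) ≤ N := by exact_mod_cast hN
  have hN0 : (0 : ℝ) < N := by linarith
  have hNδ : 1 ≤ (N : ℝ) ^ δ := Real.one_le_rpow hNr hδ0.le
  obtain ⟨τ, hτ, hAτ⟩ := hdiv N hN
  -- it is enough to find `S`, `Low`, ...
  have key : ∃ (S : Finset ℕ) (L z' t : ℕ), 1 ≤ z' ∧ ((S = ∅ ∧ t = 0) ∨
      ∃ j, S = c (Sum.inr j) ∧ z' = z j ∧ 3 * z j < 2 * N ∧ t = 1 * Nat.log (3 * z j) (2 * N) * 2 ^ (r + 1)) ∧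
      (∀ i, 3 * z i < 2 * N → (S = c (Sum.inr i)) ∨ 4 * z i ≤ L) ∧
      (2 : ℝ) ^ L ≤ C2 * (N : ℝ) ^ δ ∧ Real.exp (8 * t) ≤ 2 ^ δ * (N : ℝ) ^ δ := by
    by_cases hcase : ∃ j, 3 * z j < 2 * N ∧ B ≤ z j
    · -- the largest index
      have hfin : ∃ j, 3 * z j < 2 * N ∧ ∀ i, 3 * z i < 2 * N → i ≤ j := by
        have hbd : ∀ i, 3 * z i < 2 * N → i ≤ 2 * N := by
          intro i hi
          have := (MB1_mono z hz hz1).id_le i
          simp only [id] at this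
          omega
        obtain ⟨j0, hj0, -⟩ := hcase
        classical
        have hne : ((Finset.range (2 * N + 1)).filter (fun j => 3 * z j < 2 * N)).Nonempty :=
          ⟨j0, Finset.mem_filter.mpr ⟨Finset.mem_range.mpr (by have := hbd j0 hj0; omega), hj0⟩⟩
        obtain ⟨j, hj, hjmax⟩ := Finset.exists_max_image _ id hne
        refine ⟨j, (Finset.mem_filter.mp hj).2, fun i hi => ?_⟩
        exact hjmax i (Finset.mem_filter.mpr ⟨Finset.mem_range.mpr (by have := hbd i hi; omega), hi⟩)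
      obtain ⟨j, hj, hjmax⟩ := hfin
      have hjB : B ≤ z j := by
        obtain ⟨j0, hj0, hj0B⟩ := hcase
        exact hj0B.trans ((MB1_mono z hz hz1).monotone (hjmax j0 hj0))
      obtain ⟨m, hm1, hm2⟩ : ∃ m, 2 ^ (m ^ 2) ≤ z j ∧ ∀ i, i < j → z i ≤ m := by
        rcases j with _ | j
        · exact ⟨0, by have := hz1 0; simpa using this.trans' (by norm_num), fun i hi => absurd hi (Nat.not_lt_zero _)⟩
        · exact ⟨z j, (hz j).le, fun i hi => (MB1_mono z hz hz1).monotone (Nat.lt_succ_iff.mp hi)⟩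
      refine ⟨c (Sum.inr j), 4 * m, z j, 1 * Nat.log (3 * z j) (2 * N) * 2 ^ (r + 1),
        (by norm_num : 1 ≤ 16).trans (hz1 j), Or.inr ⟨j, rfl, rfl, hj, rfl⟩, ?_, ?_, ?_⟩
      · intro i hi
        rcases lt_or_eq_of_le (hjmax i hi) with h2 | h2
        · exact Or.inr (Nat.mul_le_mul_left _ (hm2 i h2))
        · exact Or.inl (by rw [h2])
      · -- the size of Low
        have hzN : z j ≤ N := by omega
        have h2 : (2 : ℝ) ^ ((m : ℝ) ^ 2) ≤ N := by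
          have h3 : (2 : ℕ) ^ (m ^ 2) ≤ N := hm1.trans hzN
          have h4 : ((2 : ℕ) ^ (m ^ 2) : ℝ) ≤ N := by exact_mod_cast h3
          have h5 : (2 : ℝ) ^ ((m : ℝ) ^ 2) = ((2 : ℕ) : ℝ) ^ (m ^ 2) := by
            rw [← Nat.cast_pow, Real.rpow_natCast]
            norm_num
          rw [h5]
          exact h4
        have h6 : (2 : ℝ) ^ (4 * m) ≤ 2 ^ (4 / δ) * (2 : ℝ) ^ ((m : ℝ) ^ 2 * δ) := by
          rw [← Real.rpow_add (by norm_num : (0 : ℝ) < 2), ← Real.rpow_natCast]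
          refine Real.rpow_le_rpow_of_exponent_le (by norm_num) ?_
          push_cast
          have h7 : 0 ≤ δ * ((m : ℝ) - 2 / δ) ^ 2 := by positivity
          have h8 : δ * ((m : ℝ) - 2 / δ) ^ 2 = (m : ℝ) ^ 2 * δ - 4 * m + 4 / δ := by
            field_simp
            ring
          linarith
        have h9 : (2 : ℝ) ^ ((m : ℝ) ^ 2 * δ) ≤ (N : ℝ) ^ δ := by
          rw [Real.rpow_mul (by norm_num : (0 : ℝ) ≤ 2)]
          exact Real.rpow_le_rpow (by positivity) h2 hδ0.le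
        refine h6.trans (mul_le_mul ?_ h9 (by positivity) hC20.le)
        rw [hC2]
        have : (0 : ℝ) ≤ 2 ^ (4 * B) := by positivity
        linarith
      · -- the exponential
        rw [← Real.mul_rpow (by norm_num : (0 : ℝ) ≤ 2) hN0.le, Real.rpow_def_of_pos (by positivity : (0 : ℝ) < 2 * N)]
        rw [Real.exp_le_exp]
        set q := Nat.log (3 * z j) (2 * N) with hq
        have h2 : (q : ℝ) * Real.log (3 * z j : ℕ) ≤ Real.log (2 * N) := by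
          have h3 : (3 * z j) ^ q ≤ 2 * N := Nat.pow_log_le_self _ (by omega)
          have h4 : (((3 * z j : ℕ) : ℝ)) ^ q ≤ 2 * N := by exact_mod_cast h3
          rw [← Real.log_pow]
          refine Real.log_le_log ?_ h4
          have := hz1 j
          have h5 : 0 < 3 * z j := by omega
          positivity
        have h6 := hBlog (z j) hjB
        have h7 : (0 : ℝ) ≤ q := Nat.cast_nonneg _
        have h8 : Q * q ≤ Real.log (2 * N) := by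
          calc Q * q ≤ Real.log (3 * z j : ℕ) * q := mul_le_mul_of_nonneg_right h6 h7
            _ = q * Real.log (3 * z j : ℕ) := mul_comm _ _
            _ ≤ _ := h2
        have h9 : 8 * ((1 * q * 2 ^ (r + 1) : ℕ) : ℝ) = Q * q * δ := by
          rw [hQ]
          push_cast
          field_simp
        rw [h9]
        exact mul_le_mul_of_nonneg_right h8 hδ0.le
    · -- all relevant indices are small
      push Not at hcase
      refine ⟨∅, 4 * B, 1, 0, le_rfl, Or.inl ⟨rfl, rfl⟩, ?_, ?_, ?_⟩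
      · intro i hi
        exact Or.inr (Nat.mul_le_mul_left _ (hcase i hi).le)
      · have h2 : (2 : ℝ) ^ (4 * B) ≤ C2 := by
          rw [hC2]
          have : (0 : ℝ) ≤ (2 : ℝ) ^ (4 / δ) := by positivity
          linarith
        calc (2 : ℝ) ^ (4 * B) ≤ C2 * 1 := by rw [mul_one]; exact h2
          _ ≤ C2 * (N : ℝ) ^ δ := mul_le_mul_of_nonneg_left hNδ hC20.le
      · have h2 : (1 : ℝ) ≤ 2 ^ δ := Real.one_le_rpow (by norm_num) hδ0.le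
        rw [Nat.cast_zero, mul_zero, Real.exp_zero]
        exact one_le_mul_of_one_le_of_one_le h2 hNδ
  obtain ⟨S, L, z', t, hz', hS, hLow, hb1, hb2⟩ := key
  have hmain := MB1_core γ hγ0 hγ1 z hz hz1 c hc1 hc2 w0 h0 h1 rel hrel1 hrel2 r N hN h hle a ha l hl hli S L z' t τ
    hz' hS hLow hτ
  refine hmain.trans ?_
  have h2N : (2 * N : ℝ) ^ (1 / 2 - γ) = 2 ^ (1 / 2 - γ) * (N : ℝ) ^ (1 / 2 - γ) :=
    Real.mul_rpow (by norm_num) hN0.le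
  have e1 : (18 : ℝ) ^ (τ * r * 2 ^ r) *
        (6 * N * 2 ^ (L + τ) * (2 * N : ℝ) ^ (1 / 2 - γ) * Real.exp (8 * t)) ^ (2 ^ r) =
      (6 * N * 2 ^ L * A ^ τ * (2 ^ (1 / 2 - γ) * (N : ℝ) ^ (1 / 2 - γ)) * Real.exp (8 * t)) ^ (2 ^ r) := by
    have e2 : (18 : ℝ) ^ (τ * r * 2 ^ r) = ((18 : ℝ) ^ (r * τ)) ^ (2 ^ r) := by
      rw [← pow_mul]
      congr 1
      ring
    rw [e2, ← mul_pow, h2N]
    congr 1
    rw [hA, mul_pow, ← pow_mul, pow_add]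
    ring
  rw [e1]
  have e3 : 6 * N * 2 ^ L * A ^ τ * (2 ^ (1 / 2 - γ) * (N : ℝ) ^ (1 / 2 - γ)) * Real.exp (8 * t) ≤
      (6 * C2 * C1 * 2 ^ δ * 2 ^ (1 / 2 - γ)) * (N : ℝ) ^ (3 / 2 - γ + ε) := by
    have hA0 : 0 ≤ A ^ τ := by positivity
    have hC10 : 0 < C1 := by linarith
    calc 6 * N * 2 ^ L * A ^ τ * (2 ^ (1 / 2 - γ) * (N : ℝ) ^ (1 / 2 - γ)) * Real.exp (8 * t)
        ≤ 6 * N * (C2 * (N : ℝ) ^ δ) * (C1 * (N : ℝ) ^ δ) * (2 ^ (1 / 2 - γ) * (N : ℝ) ^ (1 / 2 - γ)) *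
            (2 ^ δ * (N : ℝ) ^ δ) := by
          gcongr
      _ = (6 * C2 * C1 * 2 ^ δ * 2 ^ (1 / 2 - γ)) *
            ((N : ℝ) ^ (1 : ℝ) * (N : ℝ) ^ δ * (N : ℝ) ^ δ * (N : ℝ) ^ (1 / 2 - γ) * (N : ℝ) ^ δ) := by
          rw [Real.rpow_one]
          ring
      _ = (6 * C2 * C1 * 2 ^ δ * 2 ^ (1 / 2 - γ)) * (N : ℝ) ^ (3 / 2 - γ + ε) := by
          rw [← Real.rpow_add hN0, ← Real.rpow_add hN0, ← Real.rpow_add hN0, ← Real.rpow_add hN0]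
          congr 2
          rw [hδ]
          ring
  have e4 : (0 : ℝ) ≤ 6 * N * 2 ^ L * A ^ τ * (2 ^ (1 / 2 - γ) * (N : ℝ) ^ (1 / 2 - γ)) * Real.exp (8 * t) := by
    positivity
  calc (6 * N * 2 ^ L * A ^ τ * (2 ^ (1 / 2 - γ) * (N : ℝ) ^ (1 / 2 - γ)) * Real.exp (8 * t)) ^ (2 ^ r)
      ≤ ((6 * C2 * C1 * 2 ^ δ * 2 ^ (1 / 2 - γ)) * (N : ℝ) ^ (3 / 2 - γ + ε)) ^ (2 ^ r) :=
        pow_le_pow_left₀ e4 e3 _
    _ = (6 * C2 * C1 * 2 ^ δ * 2 ^ (1 / 2 - γ)) ^ (2 ^ r) * (N : ℝ) ^ ((3 / 2 - γ + ε) * 2 ^ r) := by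
        rw [mul_pow]
        congr 1
        rw [Real.rpow_mul hN0.le, ← Real.rpow_natCast]
        push_cast
        rfl

end Pool.Agent.Helper99.MB
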