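import Pool.Agent.Helper19.V4.TypeOne

/-!
# Mean values of exponential sums from the correlations, and the removal of a cut-off

`mean99`: `∑_{u < m ≤ v} |G_M(a m / b + φ)|² ≤ v M + 2 E (M v / b + 2 (M + b)) (1 + log (M + b))` if all correlations
`∑_{n ≤ M - h} g(n) g(n + h)`, `1 ≤ h ≤ M`, are at most `E` in absolute value.

`cut99`: `G_K(t)` for `K ≤ M` is a combination of the values `G_M(t + j/P)` with weights bounded by `W(j)`,
`∑ W(j) ≤ 6 (1 + log (2 (M + 1)))`.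
-/

set_option autoImplicit false

namespace Pool.Agent.Helper99.MB

open Finset Pool.Helper19.V4

/-- the exponential sum -/
noncomputable def G99 (g : ℕ → ℤ) (M : ℕ) (t : ℝ) : ℂ := ∑ n ∈ Icc 1 M, (g n : ℂ) * ex (n * t)

lemma conjInt99 (n : ℤ) : (starRingEnd ℂ) (n : ℂ) = (n : ℂ) := by
  have h : ((n : ℝ) : ℂ) = (n : ℂ) := by push_cast; rfl
  rw [← h, Complex.conj_ofReal]

lemma sq99 (g : ℕ → ℤ) (t : ℝ) (M : ℕ) :
    ‖G99 g M t‖ ^ 2 = ∑ n ∈ Icc 1 M, ((g n : ℤ) : ℝ) ^ 2 +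
      2 * (∑ h ∈ Icc 1 M, ((∑ n ∈ Icc 1 (M - h), g n * g (n + h) : ℤ) : ℂ) * ex (h * t)).re := by
  induction M with
  | zero => simp [G99]
  | succ M ih =>
    have h1 : G99 g (M + 1) t = G99 g M t + (g (M + 1) : ℂ) * ex (((M + 1 : ℕ) : ℝ) * t) := by
      unfold G99
      rw [Finset.sum_Icc_succ_top (by omega)]
    have h2 : ∑ h ∈ Icc 1 (M + 1), ((∑ n ∈ Icc 1 (M + 1 - h), g n * g (n + h) : ℤ) : ℂ) * ex (h * t) =
        ∑ h ∈ Icc 1 M, ((∑ n ∈ Icc 1 (M - h), g n * g (n + h) : ℤ) : ℂ) * ex (h * t) +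
        (g (M + 1) : ℂ) * ex (((M + 1 : ℕ) : ℝ) * t) * (starRingEnd ℂ) (G99 g M t) := by
      rw [Finset.sum_Icc_succ_top (by omega)]
      have h3 : M + 1 - (M + 1) = 0 := by omega
      rw [h3]
      have h4 : ((∑ n ∈ Icc 1 0, g n * g (n + (M + 1)) : ℤ) : ℂ) = 0 := by simp
      rw [h4, zero_mul, add_zero]
      have h5 : ∀ h ∈ Icc 1 M, ((∑ n ∈ Icc 1 (M + 1 - h), g n * g (n + h) : ℤ) : ℂ) * ex (h * t) =
          ((∑ n ∈ Icc 1 (M - h), g n * g (n + h) : ℤ) : ℂ) * ex (h * t) +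
          (g (M + 1 - h) : ℂ) * (g (M + 1) : ℂ) * ex (h * t) := by
        intro h hh
        rw [mem_Icc] at hh
        have h6 : M + 1 - h = (M - h) + 1 := by omega
        rw [h6, Finset.sum_Icc_succ_top (by omega)]
        have h7 : M - h + 1 + h = M + 1 := by omega
        rw [h7]
        push_cast
        ring
      rw [Finset.sum_congr rfl h5, Finset.sum_add_distrib]
      congr 1
      unfold G99
      rw [map_sum, Finset.mul_sum]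
      refine Finset.sum_nbij' (fun h => M + 1 - h) (fun n => M + 1 - n) ?_ ?_ ?_ ?_ ?_
      · intro h hh
        rw [mem_Icc] at hh ⊢
        omega
      · intro h hh
        rw [mem_Icc] at hh ⊢
        omega
      · intro h hh
        rw [mem_Icc] at hh
        omega
      · intro h hh
        rw [mem_Icc] at hh
        omega
      · intro h hh
        rw [mem_Icc] at hh
        rw [map_mul, conjInt99, ← ex_neg]
        have h8 : ex ((h : ℝ) * t) = ex (((M + 1 : ℕ) : ℝ) * t) * ex (-(((M + 1 - h : ℕ) : ℝ) * t)) := by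
          rw [← ex_add]
          congr 1
          rw [Nat.cast_sub (by omega)]
          ring
        rw [h8]
        ring
    rw [h2, h1, Complex.sq_norm, Complex.normSq_add, ← Complex.sq_norm, ih,
      Finset.sum_Icc_succ_top (by omega : 1 ≤ M + 1), Complex.add_re]
    have h9 : Complex.normSq ((g (M + 1) : ℂ) * ex (((M + 1 : ℕ) : ℝ) * t)) = ((g (M + 1) : ℤ) : ℝ) ^ 2 := by
      rw [← Complex.sq_norm, norm_mul, norm_ex, mul_one]
      have : ((g (M + 1) : ℤ) : ℂ) = (((g (M + 1) : ℤ) : ℝ) : ℂ) := by push_cast; rfl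
      rw [this, Complex.norm_real, Real.norm_eq_abs, sq_abs]
    have h10 : (G99 g M t * (starRingEnd ℂ) ((g (M + 1) : ℂ) * ex (((M + 1 : ℕ) : ℝ) * t))).re =
        ((g (M + 1) : ℂ) * ex (((M + 1 : ℕ) : ℝ) * t) * (starRingEnd ℂ) (G99 g M t)).re := by
      have : G99 g M t * (starRingEnd ℂ) ((g (M + 1) : ℂ) * ex (((M + 1 : ℕ) : ℝ) * t)) =
          (starRingEnd ℂ) ((g (M + 1) : ℂ) * ex (((M + 1 : ℕ) : ℝ) * t) * (starRingEnd ℂ) (G99 g M t)) := by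
        rw [map_mul (starRingEnd ℂ) ((g (M + 1) : ℂ) * ex (((M + 1 : ℕ) : ℝ) * t)), Complex.conj_conj, mul_comm]
      rw [this, Complex.conj_re]
    rw [h9, h10]
    ring

theorem mean99 {g : ℕ → ℤ} (hg : ∀ n, |g n| ≤ 1) {a : ℤ} {b : ℕ} (hb : 1 ≤ b) (hab : IsCoprime a (b : ℤ))
    (M : ℕ) {E : ℝ} (hE0 : 0 ≤ E)
    (hE : ∀ h, 1 ≤ h → h ≤ M → |((∑ n ∈ Icc 1 (M - h), g n * g (n + h) : ℤ) : ℝ)| ≤ E) (u v : ℕ) (φ : ℝ) :
    ∑ m ∈ Ioc u v, ‖G99 g M ((a : ℝ) * m / b + φ)‖ ^ 2 ≤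
      (v : ℝ) * M + 2 * E * (((M : ℝ) * v / b + 2 * ((M : ℝ) + b)) * (1 + Real.log ((M : ℝ) + b))) := by
  have h1 : ∑ m ∈ Ioc u v, ∑ n ∈ Icc 1 M, ((g n : ℤ) : ℝ) ^ 2 ≤ (v : ℝ) * M := by
    have h2 : ∀ m ∈ Ioc u v, ∑ n ∈ Icc 1 M, ((g n : ℤ) : ℝ) ^ 2 ≤ (M : ℝ) := by
      intro m _
      calc ∑ n ∈ Icc 1 M, ((g n : ℤ) : ℝ) ^ 2 ≤ ∑ n ∈ Icc 1 M, (1 : ℝ) := by
            refine Finset.sum_le_sum fun n _ => ?_
            have h3 : |((g n : ℤ) : ℝ)| ≤ 1 := by exact_mod_cast hg n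
            rw [← sq_abs]
            nlinarith [abs_nonneg ((g n : ℤ) : ℝ)]
        _ = M := by simp
    refine (Finset.sum_le_sum h2).trans ?_
    rw [Finset.sum_const, nsmul_eq_mul, Nat.card_Ioc]
    have h4 : (((v - u : ℕ)) : ℝ) ≤ v := by exact_mod_cast Nat.sub_le v u
    exact mul_le_mul_of_nonneg_right h4 (Nat.cast_nonneg M)
  have h2 : ∑ m ∈ Ioc u v, ‖G99 g M ((a : ℝ) * m / b + φ)‖ ^ 2 =
      ∑ m ∈ Ioc u v, ∑ n ∈ Icc 1 M, ((g n : ℤ) : ℝ) ^ 2 +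
      2 * (∑ h ∈ Icc 1 M, ((∑ n ∈ Icc 1 (M - h), g n * g (n + h) : ℤ) : ℂ) * (ex (h * φ) *
        ∑ m ∈ Ioc u v, ex ((a : ℝ) * ((h : ℝ) * m) / b))).re := by
    have h3 : ∀ m ∈ Ioc u v, ‖G99 g M ((a : ℝ) * m / b + φ)‖ ^ 2 = ∑ n ∈ Icc 1 M, ((g n : ℤ) : ℝ) ^ 2 +
        2 * (∑ h ∈ Icc 1 M, ((∑ n ∈ Icc 1 (M - h), g n * g (n + h) : ℤ) : ℂ) * (ex (h * φ) *
          ex ((a : ℝ) * ((h : ℝ) * m) / b))).re := by
      intro m _
      rw [sq99]
      have h5 : ∀ h ∈ Icc 1 M, ((∑ n ∈ Icc 1 (M - h), g n * g (n + h) : ℤ) : ℂ) * ex (h * ((a : ℝ) * m / b + φ)) =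
          ((∑ n ∈ Icc 1 (M - h), g n * g (n + h) : ℤ) : ℂ) * (ex (h * φ) *
          ex ((a : ℝ) * ((h : ℝ) * m) / b)) := by
        intro h _
        congr 1
        rw [← ex_add]
        congr 1
        ring
      rw [Finset.sum_congr rfl h5]
    have h4 : ∑ m ∈ Ioc u v, ∑ h ∈ Icc 1 M, ((∑ n ∈ Icc 1 (M - h), g n * g (n + h) : ℤ) : ℂ) * (ex (h * φ) *
          ex ((a : ℝ) * ((h : ℝ) * m) / b)) = ∑ h ∈ Icc 1 M, ((∑ n ∈ Icc 1 (M - h), g n * g (n + h) : ℤ) : ℂ) *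
          (ex (h * φ) * ∑ m ∈ Ioc u v, ex ((a : ℝ) * ((h : ℝ) * m) / b)) := by
      rw [Finset.sum_comm]
      refine Finset.sum_congr rfl fun h _ => ?_
      rw [← Finset.mul_sum, ← Finset.mul_sum]
    rw [Finset.sum_congr rfl h3, Finset.sum_add_distrib, ← Finset.mul_sum, ← Complex.re_sum, h4]
  have h3 : (∑ h ∈ Icc 1 M, ((∑ n ∈ Icc 1 (M - h), g n * g (n + h) : ℤ) : ℂ) * (ex (h * φ) *
        ∑ m ∈ Ioc u v, ex ((a : ℝ) * ((h : ℝ) * m) / b))).re ≤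
      E * (((M : ℝ) * v / b + 2 * ((M : ℝ) + b)) * (1 + Real.log ((M : ℝ) + b))) := by
    refine (Complex.re_le_norm _).trans ((norm_sum_le _ _).trans ?_)
    have h4 : ∀ h ∈ Icc 1 M, ‖((∑ n ∈ Icc 1 (M - h), g n * g (n + h) : ℤ) : ℂ) * (ex (h * φ) *
        ∑ m ∈ Ioc u v, ex ((a : ℝ) * ((h : ℝ) * m) / b))‖ ≤
        E * ‖∑ m ∈ Ioc u v, ex ((a : ℝ) * ((h : ℝ) * m) / b)‖ := by
      intro h hh
      rw [mem_Icc] at hh
      rw [norm_mul, norm_mul, norm_ex, one_mul]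
      refine mul_le_mul_of_nonneg_right ?_ (norm_nonneg _)
      have h5 : ((∑ n ∈ Icc 1 (M - h), g n * g (n + h) : ℤ) : ℂ) =
          (((∑ n ∈ Icc 1 (M - h), g n * g (n + h) : ℤ) : ℝ) : ℂ) := by push_cast; rfl
      rw [h5, Complex.norm_real, Real.norm_eq_abs]
      exact hE h hh.1 hh.2
    refine (Finset.sum_le_sum h4).trans ?_
    rw [← Finset.mul_sum]
    refine mul_le_mul_of_nonneg_left ?_ hE0
    exact type_one hb hab M (by positivity) (fun _ => u) (fun _ => v) (fun m _ hm => by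
      have : (m : ℝ) ≤ M := by exact_mod_cast hm
      exact mul_le_mul_of_nonneg_right this (Nat.cast_nonneg v))
  rw [h2]
  linarith

lemma ortho99 {b : ℕ} (hb : 1 ≤ b) {c : ℤ} (hc : ¬ (b : ℤ) ∣ c) :
    ∑ m ∈ range b, ex (m * ((c : ℝ) / b)) = 0 := by
  have hpow : ∀ (x : ℝ) (m : ℕ), ex (m * x) = ex x ^ m := by
    intro x m
    induction m with
    | zero => simp [ex_zero]
    | succ m ih =>
      rw [pow_succ, ← ih, ← ex_add]
      congr 1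
      push_cast
      ring
  have hb0 : (b : ℝ) ≠ 0 := by
    have : (0 : ℝ) < b := by exact_mod_cast hb
    exact this.ne'
  have h1 : ex ((c : ℝ) / b) ≠ 1 := by
    intro h
    rw [ex, Complex.exp_eq_one_iff] at h
    obtain ⟨n, hn⟩ := h
    have h2 : (((2 * Real.pi * ((c : ℝ) / b) : ℝ) : ℂ)) = ((n * (2 * Real.pi) : ℝ) : ℂ) := by
      have h3 : (((2 * Real.pi * ((c : ℝ) / b) : ℝ) : ℂ)) * Complex.I =
          ((n * (2 * Real.pi) : ℝ) : ℂ) * Complex.I := by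
        rw [hn]
        push_cast
        ring
      exact mul_right_cancel₀ Complex.I_ne_zero h3
    have h4 : 2 * Real.pi * ((c : ℝ) / b) = n * (2 * Real.pi) := by exact_mod_cast h2
    have h5 : (c : ℝ) / b = n := by
      have := Real.pi_pos
      have h6 : 2 * Real.pi * ((c : ℝ) / b) = 2 * Real.pi * n := by rw [h4]; ring
      exact mul_left_cancel₀ (by positivity) h6
    rw [div_eq_iff hb0] at h5
    have h6 : c = n * b := by exact_mod_cast h5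
    exact hc ⟨n, by rw [h6]; ring⟩
  simp_rw [hpow]
  rw [geom_sum_eq h1]
  have h2 : ex ((c : ℝ) / b) ^ b = 1 := by
    rw [← hpow, mul_div_cancel₀ _ hb0, ex_int]
  rw [h2, sub_self, zero_div]

/-- the weights of the cut-off -/
noncomputable def w99 (M K j : ℕ) : ℂ :=
  ((M + 1 : ℕ) : ℂ)⁻¹ * ∑ k ∈ Ioc 0 K, ex (((-1 : ℤ) : ℝ) * ((j : ℝ) * k) / ((M + 1 : ℕ) : ℝ))

lemma cutEq99 (g : ℕ → ℤ) {M K : ℕ} (hK : K ≤ M) (t : ℝ) :
    G99 g K t = ∑ j ∈ range (M + 1), w99 M K j * G99 g M (t + j / ((M + 1 : ℕ) : ℝ)) := by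
  have hP0 : ((M + 1 : ℕ) : ℂ) ≠ 0 := by exact_mod_cast Nat.succ_ne_zero M
  have h1 : ∀ n ∈ Icc 1 M, ∀ k ∈ Ioc 0 K,
      ∑ j ∈ range (M + 1), ex (j * (((((n : ℤ) - k : ℤ)) : ℝ) / ((M + 1 : ℕ) : ℝ))) =
        if k = n then ((M + 1 : ℕ) : ℂ) else 0 := by
    intro n hn k hk
    rw [mem_Icc] at hn
    rw [mem_Ioc] at hk
    split_ifs with h
    · subst h
      simp [ex_zero]
    · apply ortho99 (by omega)
      intro hd
      have h2 : ((n : ℤ) - k).natAbs < (((M + 1 : ℕ) : ℤ)).natAbs := by omega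
      have h3 := Int.eq_zero_of_dvd_of_natAbs_lt_natAbs hd h2
      omega
  have h2 : ∑ j ∈ range (M + 1), w99 M K j * G99 g M (t + j / ((M + 1 : ℕ) : ℝ)) =
      ∑ n ∈ Icc 1 M, (g n : ℂ) * ex (n * t) * (((M + 1 : ℕ) : ℂ)⁻¹ * ∑ k ∈ Ioc 0 K,
        ∑ j ∈ range (M + 1), ex (j * (((((n : ℤ) - k : ℤ)) : ℝ) / ((M + 1 : ℕ) : ℝ)))) := by
    unfold w99 G99
    simp_rw [Finset.mul_sum, Finset.sum_mul]
    rw [Finset.sum_comm]
    refine Finset.sum_congr rfl fun n _ => ?_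
    rw [Finset.sum_comm]
    refine Finset.sum_congr rfl fun k _ => Finset.sum_congr rfl fun j _ => ?_
    have h3 : ex ((n : ℝ) * (t + j / ((M + 1 : ℕ) : ℝ))) = ex (n * t) * ex (n * (j / ((M + 1 : ℕ) : ℝ))) := by
      rw [← ex_add]
      congr 1
      ring
    have h4 : ex (j * (((((n : ℤ) - k : ℤ)) : ℝ) / ((M + 1 : ℕ) : ℝ))) =
        ex (n * (j / ((M + 1 : ℕ) : ℝ))) * ex (((-1 : ℤ) : ℝ) * ((j : ℝ) * k) / ((M + 1 : ℕ) : ℝ)) := by
      rw [← ex_add]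
      congr 1
      push_cast
      ring
    rw [h3, h4]
    ring
  rw [h2]
  have h3 : ∀ n ∈ Icc 1 M, (g n : ℂ) * ex (n * t) * (((M + 1 : ℕ) : ℂ)⁻¹ * ∑ k ∈ Ioc 0 K,
        ∑ j ∈ range (M + 1), ex (j * (((((n : ℤ) - k : ℤ)) : ℝ) / ((M + 1 : ℕ) : ℝ)))) =
      if n ≤ K then (g n : ℂ) * ex (n * t) else 0 := by
    intro n hn
    rw [Finset.sum_congr rfl (h1 n hn), Finset.sum_ite_eq']
    rw [mem_Icc] at hn
    by_cases h : n ≤ K
    · rw [if_pos (mem_Ioc.2 ⟨hn.1, h⟩), if_pos h, inv_mul_cancel₀ hP0, mul_one]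
    · rw [if_neg (fun h' => h (mem_Ioc.1 h').2), if_neg h, mul_zero, mul_zero]
  rw [Finset.sum_congr rfl h3, ← Finset.sum_filter]
  unfold G99
  refine Finset.sum_congr ?_ fun _ _ => rfl
  ext n
  rw [mem_filter, mem_Icc, mem_Icc]
  omega

lemma cutW99 (M : ℕ) : ∃ W : ℕ → ℝ, (∀ j, 0 ≤ W j) ∧ (∀ K j, K ≤ M → ‖w99 M K j‖ ≤ W j) ∧
    ∑ j ∈ range (M + 1), W j ≤ 6 * (1 + Real.log (2 * ((M : ℝ) + 1))) := by
  have hP : (0 : ℝ) < (M : ℝ) + 1 := by positivity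
  have h1 : ∀ j : ℕ, ∃ K : ℕ, K ≤ M ∧ ∀ K', K' ≤ M → ‖w99 M K' j‖ ≤ ‖w99 M K j‖ := by
    intro j
    obtain ⟨K, hK, hmax⟩ := Finset.exists_max_image (range (M + 1)) (fun K => ‖w99 M K j‖) ⟨0, by simp⟩
    refine ⟨K, by rw [mem_range] at hK; omega, fun K' hK' => hmax K' (by rw [mem_range]; omega)⟩
  choose v hv hmax using h1
  refine ⟨fun j => ‖w99 M (v j) j‖, fun j => norm_nonneg _, fun K j hK => hmax j K hK, ?_⟩
  have hlog : 0 ≤ Real.log (2 * ((M : ℝ) + 1)) := by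
    apply Real.log_nonneg
    have : (0 : ℝ) ≤ M := Nat.cast_nonneg M
    linarith
  have hn : ∀ j, ‖w99 M (v j) j‖ = ((M : ℝ) + 1)⁻¹ *
      ‖∑ k ∈ Ioc 0 (v j), ex (((-1 : ℤ) : ℝ) * ((j : ℝ) * k) / ((M + 1 : ℕ) : ℝ))‖ := by
    intro j
    unfold w99
    rw [norm_mul, norm_inv, Complex.norm_natCast]
    push_cast
    rfl
  have h0 : ‖w99 M (v 0) 0‖ ≤ 1 := by
    rw [hn]
    have h2 : ‖∑ k ∈ Ioc 0 (v 0), ex (((-1 : ℤ) : ℝ) * (((0 : ℕ) : ℝ) * k) / ((M + 1 : ℕ) : ℝ))‖ ≤ (M : ℝ) + 1 := by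
      refine (norm_sum_le _ _).trans ?_
      simp only [norm_ex, Finset.sum_const, nsmul_eq_mul, mul_one, Nat.card_Ioc]
      have : ((v 0 - 0 : ℕ) : ℝ) ≤ M := by exact_mod_cast (by have := hv 0; omega : v 0 - 0 ≤ M)
      linarith
    calc _ ≤ ((M : ℝ) + 1)⁻¹ * ((M : ℝ) + 1) := mul_le_mul_of_nonneg_left h2 (by positivity)
      _ = 1 := inv_mul_cancel₀ hP.ne'
  have h2 := type_one (a := -1) (b := M + 1) (by omega) (by
    rw [Int.isCoprime_iff_gcd_eq_one]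
    simp) M (X := (M : ℝ) * M) (by positivity) (fun _ => 0) v (fun m _ hm => by
      have h3 : (m : ℝ) ≤ M := by exact_mod_cast hm
      have h4 : (v m : ℝ) ≤ M := by exact_mod_cast hv m
      exact mul_le_mul h3 h4 (Nat.cast_nonneg _) (Nat.cast_nonneg _))
  have h3 : Finset.range (M + 1) = insert 0 (Icc 1 M) := by
    ext j
    rw [mem_range, mem_insert, mem_Icc]
    omega
  rw [h3, Finset.sum_insert (by simp)]
  have h4 : ∑ j ∈ Icc 1 M, ‖w99 M (v j) j‖ ≤ 5 * (1 + Real.log (2 * ((M : ℝ) + 1))) := by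
    rw [Finset.sum_congr rfl fun j _ => hn j, ← Finset.mul_sum]
    have h5 : ((M : ℝ) * M / ((M + 1 : ℕ) : ℝ) + 2 * ((M : ℝ) + ((M + 1 : ℕ) : ℝ))) ≤ 5 * ((M : ℝ) + 1) := by
      have h6 : (M : ℝ) * M / ((M + 1 : ℕ) : ℝ) ≤ M := by
        push_cast
        rw [div_le_iff₀ hP]
        have : (0 : ℝ) ≤ M := Nat.cast_nonneg M
        nlinarith
      push_cast at h6 ⊢
      linarith
    have h6 : Real.log ((M : ℝ) + ((M + 1 : ℕ) : ℝ)) ≤ Real.log (2 * ((M : ℝ) + 1)) := by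
      apply Real.log_le_log
      · push_cast
        have : (0 : ℝ) ≤ M := Nat.cast_nonneg M
        linarith
      · push_cast
        linarith
    have h7 : 0 ≤ Real.log ((M : ℝ) + ((M + 1 : ℕ) : ℝ)) := by
      apply Real.log_nonneg
      push_cast
      have : (0 : ℝ) ≤ M := Nat.cast_nonneg M
      linarith
    calc _ ≤ ((M : ℝ) + 1)⁻¹ * (((M : ℝ) * M / ((M + 1 : ℕ) : ℝ) + 2 * ((M : ℝ) + ((M + 1 : ℕ) : ℝ))) *
          (1 + Real.log ((M : ℝ) + ((M + 1 : ℕ) : ℝ)))) := mul_le_mul_of_nonneg_left h2 (by positivity)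
      _ ≤ ((M : ℝ) + 1)⁻¹ * ((5 * ((M : ℝ) + 1)) * (1 + Real.log (2 * ((M : ℝ) + 1)))) := by
          refine mul_le_mul_of_nonneg_left ?_ (by positivity)
          exact mul_le_mul h5 (by linarith) (by linarith) (by positivity)
      _ = 5 * (1 + Real.log (2 * ((M : ℝ) + 1))) := by
          field_simp
  linarith

end Pool.Agent.Helper99.MB
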